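import Pool.Agent.H609.AV.Line

/-!
# Analytic functions which are not polynomials in the variables have nonzero derivatives of high order

Adapted from `Q270.RT.Ana` (homogeneous functions of degree zero, no parameters).
-/

set_option autoImplicit false

namespace Pool.Agent.H609.AV

open Finset Real Filter Topology
open Pool.Agent.Q270.RT (InC rv Dd Psi Psi_zero Psi_succ Psi_ana Psi_der line_deriv)

variable {n m : ℕ}

/-- near `c0`, and as functions of the variables (the coordinates in `S`) only, no nontrivial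
combination of the functions is a polynomial -/
def NonPoly (S : Finset (Fin n)) (Φ : Fin m → (Fin n → ℝ) → ℝ) (c0 : Fin n → ℝ) : Prop :=
  ∀ u : Fin m → ℝ, u ≠ 0 → ¬ ∃ P : MvPolynomial (Fin n) ℝ,
    ∀ᶠ c in 𝓝 c0, (∀ i, i ∉ S → c i = c0 i) → ∑ j, u j * Φ j c = MvPolynomial.eval c P

/-- symmetric multilinear maps are polynomials -/
lemma multi_poly (k : ℕ) (p : ContinuousMultilinearMap ℝ (fun _ : Fin k => Fin n → ℝ) ℝ)
    (c0 : Fin n → ℝ) : ∃ P : MvPolynomial (Fin n) ℝ,
      ∀ c, p (fun _ => c - c0) = MvPolynomial.eval c P := by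
  classical
  refine ⟨∑ r : Fin k → Fin n, MvPolynomial.C (p (fun i => Pi.single (r i) 1)) *
    ∏ i, (MvPolynomial.X (r i) - MvPolynomial.C (c0 (r i))), fun c => ?_⟩
  have h1 : (fun _ : Fin k => c - c0) =
      fun i : Fin k => ∑ j : Fin n, (c j - c0 j) • (Pi.single j (1 : ℝ) : Fin n → ℝ) := by
    funext i
    exact pi_eq_sum_univ' (c - c0)
  rw [h1]
  have h2 := p.toMultilinearMap.map_sum
    (fun (i : Fin k) (j : Fin n) => (c j - c0 j) • (Pi.single j (1 : ℝ) : Fin n → ℝ))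
  have h3 : p (fun i : Fin k => ∑ j : Fin n, (c j - c0 j) • (Pi.single j (1 : ℝ) : Fin n → ℝ)) =
      ∑ r : Fin k → Fin n, p (fun i => (c (r i) - c0 (r i)) •
        (Pi.single (r i) (1 : ℝ) : Fin n → ℝ)) := h2
  rw [h3, map_sum]
  refine sum_congr rfl fun r _ => ?_
  rw [p.map_smul_univ, map_mul, map_prod, MvPolynomial.eval_C, smul_eq_mul, mul_comm]
  congr 1
  refine prod_congr rfl fun i _ => ?_
  rw [map_sub, MvPolynomial.eval_X, MvPolynomial.eval_C]

/-- a combination which is not a polynomial in the variables has nonzero derivatives of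
arbitrarily high order in integer directions -/
lemma exists_deriv {S : Finset (Fin n)} {Φ : Fin m → (Fin n → ℝ) → ℝ} {c0 : Fin n → ℝ} {r : ℝ}
    (hr : 0 < r)
    (h : ∀ j, AnalyticOnNhd ℝ (Φ j) (Metric.ball c0 r)) (u : Fin m → ℝ)
    (hnd : ¬ ∃ P : MvPolynomial (Fin n) ℝ,
      ∀ᶠ c in 𝓝 c0, (∀ i, i ∉ S → c i = c0 i) → ∑ j, u j * Φ j c = MvPolynomial.eval c P)
    (K : ℕ) :
    ∃ (v : Fin n → ℤ) (k : ℕ), K ≤ k ∧ Dir S v ∧ ∑ j, u j * Psi Φ v j k c0 ≠ 0 := by
  classical
  by_contra hcon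
  push Not at hcon
  set F : (Fin n → ℝ) → ℝ := fun c => ∑ j, u j * Φ j c with hF
  have hFa : AnalyticAt ℝ F c0 := by
    rw [hF]
    exact Finset.analyticAt_fun_sum _ fun j _ =>
      analyticAt_const.mul (h j c0 (Metric.mem_ball_self hr))
  obtain ⟨p, hp⟩ := hFa
  obtain ⟨ρ, hρ⟩ := hp
  have hρ0 := hρ.r_pos
  -- the Taylor coefficients in the integer directions
  have hcoef : ∀ (v : Fin n → ℤ) (k : ℕ), K ≤ k → Dir S v → p k (fun _ => rv v) = 0 := by
    intro v k hk hvd
    set G : ℝ → ℝ := fun t => F (c0 + t • rv v) with hG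
    have hline : Tendsto (fun t : ℝ => t • rv v) (𝓝 0) (𝓝 0) := by
      have : ContinuousAt (fun t : ℝ => t • rv v) 0 := by fun_prop
      have h5 := this.tendsto
      rwa [zero_smul] at h5
    have h1 : ∀ᶠ t : ℝ in 𝓝 0, HasSum (fun k => p k (fun _ => t • rv v)) (G t) := by
      have h2 : ∀ᶠ y : Fin n → ℝ in 𝓝 0, y ∈ Metric.eball (0 : Fin n → ℝ) ρ :=
        Metric.eball_mem_nhds _ hρ0
      filter_upwards [hline.eventually h2] with t ht
      exact hρ.hasSum ht
    have h3 : HasFPowerSeriesAt G (FormalMultilinearSeries.ofScalars ℝ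
        (fun k => p k (fun _ => rv v))) 0 := by
      rw [hasFPowerSeriesAt_iff]
      filter_upwards [h1] with t ht
      rw [zero_add]
      refine ht.congr_fun fun k => ?_
      rw [FormalMultilinearSeries.coeff_ofScalars, smul_eq_mul]
      have h4 := (p k).map_smul_univ (fun _ => t) (fun _ => rv v)
      rw [h4, prod_const, card_univ, Fintype.card_fin, smul_eq_mul]
    have h4 : AnalyticAt ℝ G 0 := h3.analyticAt
    have h5 := h3.eq_formalMultilinearSeries h4.hasFPowerSeriesAt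
    have h6 := congrArg (fun q => FormalMultilinearSeries.coeff q k) h5
    simp only [FormalMultilinearSeries.coeff_ofScalars] at h6
    have h7 : iteratedDeriv k G 0 = 0 := by
      have h8 := line_deriv h u v k 0 (by rw [zero_smul, add_zero]; exact Metric.mem_ball_self hr)
      rw [zero_smul, add_zero] at h8
      have h9 : iteratedDeriv k G 0 = ∑ j, u j * Psi Φ v j k c0 := h8
      rw [h9]
      exact hcon v k hk hvd
    rw [h6, h7, zero_div]
  -- in all directions
  have hall : ∀ (y : Fin n → ℝ) (k : ℕ), K ≤ k → (∀ i, i ∉ S → y i = 0) →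
      p k (fun _ => y) = 0 := by
    intro y k hk hy
    have hlim : Tendsto (fun N : ℕ => ((N : ℝ)⁻¹) • rv (fun i => ⌊(N : ℝ) * y i⌋)) atTop (𝓝 y) := by
      rw [tendsto_pi_nhds]
      intro i
      have h1 : Tendsto (fun N : ℕ => ((N : ℝ))⁻¹) atTop (𝓝 0) :=
        tendsto_inv_atTop_zero.comp tendsto_natCast_atTop_atTop
      have h2 : Tendsto (fun N : ℕ => y i - ((N : ℝ))⁻¹) atTop (𝓝 (y i)) := by
        have := h1.const_sub (y i)
        rwa [sub_zero] at this
      refine tendsto_of_tendsto_of_tendsto_of_le_of_le' h2 tendsto_const_nhds ?_ ?_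
      · filter_upwards [eventually_ge_atTop 1] with N hN
        have hN0 : (0 : ℝ) < N := by exact_mod_cast hN
        have h3 := Int.lt_floor_add_one ((N : ℝ) * y i)
        show y i - (N : ℝ)⁻¹ ≤ (N : ℝ)⁻¹ * ((⌊(N : ℝ) * y i⌋ : ℤ) : ℝ)
        have h4 : (N : ℝ)⁻¹ * ((N : ℝ) * y i - 1) ≤ (N : ℝ)⁻¹ * ((⌊(N : ℝ) * y i⌋ : ℤ) : ℝ) := by
          gcongr
          linarith
        refine le_trans (le_of_eq ?_) h4
        field_simp
      · filter_upwards [eventually_ge_atTop 1] with N hN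
        have hN0 : (0 : ℝ) < N := by exact_mod_cast hN
        have h3 := Int.floor_le ((N : ℝ) * y i)
        show (N : ℝ)⁻¹ * ((⌊(N : ℝ) * y i⌋ : ℤ) : ℝ) ≤ y i
        have h4 : (N : ℝ)⁻¹ * ((⌊(N : ℝ) * y i⌋ : ℤ) : ℝ) ≤ (N : ℝ)⁻¹ * ((N : ℝ) * y i) := by
          gcongr
        refine h4.trans (le_of_eq ?_)
        field_simp
    have hcont : Continuous fun y : Fin n → ℝ => p k (fun _ => y) :=
      (p k).cont.comp (continuous_pi fun _ => continuous_id)
    have h1 := (hcont.tendsto y).comp hlim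
    have h2 : ∀ N : ℕ, p k (fun _ => ((N : ℝ)⁻¹) • rv (fun i => ⌊(N : ℝ) * y i⌋)) = 0 := by
      intro N
      have h4 := (p k).map_smul_univ (fun _ => (N : ℝ)⁻¹) (fun _ => rv (fun i => ⌊(N : ℝ) * y i⌋))
      have hd : Dir S (fun i => ⌊(N : ℝ) * y i⌋) := fun i hi => by
        simp only [hy i hi, mul_zero, Int.floor_zero]
      rw [h4, hcoef _ k hk hd, smul_zero]
    refine tendsto_nhds_unique h1 ?_
    have h3 : ((fun y : Fin n → ℝ => p k (fun _ => y)) ∘
        fun N : ℕ => ((N : ℝ)⁻¹) • rv (fun i => ⌊(N : ℝ) * y i⌋)) = fun _ => 0 := by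
      funext N
      exact h2 N
    rw [h3]
    exact tendsto_const_nhds
  -- the polynomial
  have hFG : ∀ᶠ c in 𝓝 c0, (∀ i, i ∉ S → c i = c0 i) →
      F c = ∑ k ∈ range K, p k (fun _ => c - c0) := by
    have h2 : ∀ᶠ y : Fin n → ℝ in 𝓝 0, y ∈ Metric.eball (0 : Fin n → ℝ) ρ :=
      Metric.eball_mem_nhds _ hρ0
    have h3 : Tendsto (fun c : Fin n → ℝ => c - c0) (𝓝 c0) (𝓝 0) := by
      have : ContinuousAt (fun c : Fin n → ℝ => c - c0) c0 := by fun_prop
      have h5 := this.tendsto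
      rwa [sub_self] at h5
    filter_upwards [h3.eventually h2] with c hc hcS
    have h4 := hρ.hasSum hc
    rw [add_sub_cancel] at h4
    have h5 : HasSum (fun k => p k (fun _ => c - c0)) (∑ k ∈ range K, p k (fun _ => c - c0)) := by
      refine hasSum_sum_of_ne_finset_zero fun k hk => ?_
      exact hall _ k (by rw [mem_range] at hk; omega) fun i hi => by
        rw [Pi.sub_apply, hcS i hi, sub_self]
    exact h4.unique h5
  apply hnd
  choose P hP using fun k => multi_poly k (p k) c0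
  refine ⟨∑ k ∈ range K, P k, ?_⟩
  filter_upwards [hFG] with c hc hcS
  rw [map_sum]
  rw [← sum_congr rfl fun k _ => hP k c]
  exact hc hcS

/-- the derivatives on a small cube -/
theorem exists_chain {S : Finset (Fin n)} {Φ : Fin m → (Fin n → ℝ) → ℝ} {c0 : Fin n → ℝ}
    (hΦ : ∀ j, AnalyticAt ℝ (Φ j) c0) (hnd : NonPoly S Φ c0)
    (K : ℕ) (δ1 : ℝ) (hδ1 : 0 < δ1) :
    ∃ δ : ℝ, 0 < δ ∧ δ ≤ δ1 ∧ ChainS S c0 δ K (Psi Φ) := by
  obtain ⟨r, hr, hr2⟩ : ∃ r : ℝ, 0 < r ∧ ∀ j, AnalyticOnNhd ℝ (Φ j) (Metric.ball c0 r) := by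
    have h1 : ∀ᶠ c in 𝓝 c0, ∀ j, AnalyticAt ℝ (Φ j) c :=
      Filter.eventually_all.2 fun j => (hΦ j).eventually_analyticAt
    obtain ⟨r, hr, h2⟩ := Metric.eventually_nhds_iff_ball.1 h1
    exact ⟨r, hr, fun j c hc => h2 c hc j⟩
  have hin : ∀ {δ : ℝ}, 0 ≤ δ → ∀ {c : Fin n → ℝ}, InC c0 δ c → dist c c0 ≤ δ := by
    intro δ hδ c hc
    rw [dist_pi_le_iff hδ]
    intro i
    rw [Real.dist_eq]
    exact hc i
  -- compactness of the sphere
  have hkey : ∃ (F : Finset ((Fin n → ℤ) × ℕ)) (η δ : ℝ), 0 < η ∧ 0 < δ ∧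
      (∀ i ∈ F, K ≤ i.2 ∧ Dir S i.1) ∧
      ∀ u ∈ Metric.sphere (0 : Fin m → ℝ) 1, ∃ i ∈ F, ∀ c, InC c0 δ c →
        η ≤ |∑ j, u j * Psi Φ i.1 j i.2 c| := by
    refine (isCompact_sphere (0 : Fin m → ℝ) 1).induction_on
      (p := fun s => ∃ (F : Finset ((Fin n → ℤ) × ℕ)) (η δ : ℝ), 0 < η ∧ 0 < δ ∧
      (∀ i ∈ F, K ≤ i.2 ∧ Dir S i.1) ∧
      ∀ u ∈ s, ∃ i ∈ F, ∀ c, InC c0 δ c → η ≤ |∑ j, u j * Psi Φ i.1 j i.2 c|) ?_ ?_ ?_ ?_
    · exact ⟨∅, 1, 1, one_pos, one_pos, by simp, by simp⟩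
    · rintro s t hst ⟨F, η, δ, h1, h2, h3, h4⟩
      exact ⟨F, η, δ, h1, h2, h3, fun u hu => h4 u (hst hu)⟩
    · rintro s t ⟨F, η, δ, h1, h2, h3, h4⟩ ⟨F', η', δ', h1', h2', h3', h4'⟩
      classical
      refine ⟨F ∪ F', min η η', min δ δ', lt_min h1 h1', lt_min h2 h2', ?_, ?_⟩
      · intro i hi
        rcases Finset.mem_union.1 hi with h | h
        · exact h3 i h
        · exact h3' i h
      · rintro u (hu | hu)
        · obtain ⟨i, hi, hi2⟩ := h4 u hu
          exact ⟨i, Finset.mem_union_left _ hi, fun c hc => (min_le_left _ _).trans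
            (hi2 c fun j => (hc j).trans (min_le_left _ _))⟩
        · obtain ⟨i, hi, hi2⟩ := h4' u hu
          exact ⟨i, Finset.mem_union_right _ hi, fun c hc => (min_le_right _ _).trans
            (hi2 c fun j => (hc j).trans (min_le_right _ _))⟩
    · intro u hu
      have hu0 : u ≠ 0 := by
        rintro rfl
        simp at hu
      obtain ⟨v, k, hk, hvd, hk0⟩ := exists_deriv hr hr2 u (hnd u hu0) K
      set f : (Fin m → ℝ) × (Fin n → ℝ) → ℝ := fun x => ∑ j, x.1 j * Psi Φ v j k x.2 with hf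
      have hfc : ContinuousAt f (u, c0) := by
        have h1 : ∀ j, ContinuousAt (fun x : (Fin m → ℝ) × (Fin n → ℝ) =>
            x.1 j * Psi Φ v j k x.2) (u, c0) := by
          intro j
          have h2 : ContinuousAt (Psi Φ v j k) c0 :=
            (Psi_ana hr2 v j k c0 (Metric.mem_ball_self hr)).continuousAt
          have h3 : ContinuousAt (fun x : (Fin m → ℝ) × (Fin n → ℝ) => Psi Φ v j k x.2)
              (u, c0) := ContinuousAt.comp (f := Prod.snd) h2 continuousAt_snd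
          have h4 : ContinuousAt (fun x : (Fin m → ℝ) × (Fin n → ℝ) => x.1 j) (u, c0) :=
            ((continuous_apply j).comp continuous_fst).continuousAt
          exact h4.mul h3
        rw [hf]
        exact tendsto_finsetSum _ fun j _ => h1 j
      have hf0 : 0 < |f (u, c0)| := abs_pos.2 hk0
      have hev : ∀ᶠ x in 𝓝 (u, c0), |f (u, c0)| / 2 ≤ |f x| := by
        have := hfc.abs.eventually (lt_mem_nhds (show |f (u, c0)| / 2 < |f (u, c0)| by linarith))
        exact this.mono fun x hx => le_of_lt hx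
      rw [nhds_prod_eq, Filter.eventually_prod_iff] at hev
      obtain ⟨pa, hpa, pb, hpb, hpab⟩ := hev
      obtain ⟨δ, hδ, hδ2⟩ := Metric.eventually_nhds_iff.1 hpb
      refine ⟨{v | pa v}, nhdsWithin_le_nhds hpa, {(v, k)}, |f (u, c0)| / 2, δ / 2, by positivity,
        by positivity, by simpa using ⟨hk, hvd⟩, ?_⟩
      intro v' hv'
      refine ⟨(v, k), Finset.mem_singleton_self _, fun c hc => ?_⟩
      exact hpab hv' (hδ2 (lt_of_le_of_lt (hin (by positivity) hc) (by linarith)))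
  obtain ⟨F, η, δ', hη, hδ', hFK, hbig⟩ := hkey
  set δ : ℝ := min (min δ' (r / 2)) δ1 with hδdef
  have hδ0 : 0 < δ := lt_min (lt_min hδ' (by positivity)) hδ1
  have hδδ' : δ ≤ δ' := (min_le_left _ _).trans (min_le_left _ _)
  have hδr : δ ≤ r / 2 := (min_le_left _ _).trans (min_le_right _ _)
  have hball : ∀ c, InC c0 δ c → c ∈ Metric.ball c0 r := by
    intro c hc
    rw [Metric.mem_ball]
    exact lt_of_le_of_lt (hin hδ0.le hc) (by linarith)
  refine ⟨δ, hδ0, min_le_right _ _,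
    ⟨fun v j k c hc => Psi_der hr2 v j k (hball c hc), fun v j => rfl, ?_, ?_⟩⟩
  · intro v k
    have hcpt : IsCompact (Metric.closedBall c0 δ) := isCompact_closedBall _ _
    have h1 : ∀ j, ∃ C, ∀ c ∈ Metric.closedBall c0 δ, |Psi Φ v j k c| ≤ C := by
      intro j
      have h2 : ContinuousOn (Psi Φ v j k) (Metric.closedBall c0 δ) := fun c hc =>
        (Psi_ana hr2 v j k c (by
          rw [Metric.mem_closedBall] at hc
          rw [Metric.mem_ball]
          linarith)).continuousAt.continuousWithinAt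
      obtain ⟨C, hC⟩ := hcpt.exists_bound_of_continuousOn h2
      exact ⟨C, fun c hc => hC c hc⟩
    choose C hC using h1
    refine ⟨∑ j, |C j|, fun j c hc => ?_⟩
    refine (hC j c (Metric.mem_closedBall.2 (hin hδ0.le hc))).trans ((le_abs_self _).trans ?_)
    exact Finset.single_le_sum (f := fun j => |C j|) (fun j _ => abs_nonneg _) (mem_univ j)
  · refine ⟨F, η, hη, hFK, fun u hu => ?_⟩
    obtain ⟨i, hi, hi2⟩ := hbig u (by rw [mem_sphere_zero_iff_norm]; exact hu)
    exact ⟨i, hi, fun c hc => hi2 c fun j => (hc j).trans hδδ'⟩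

end Pool.Agent.H609.AV
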