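import Pool.Agent.H609.AV.Root

/-!
# Few polynomials have nearly multiple roots, uniformly in the fixed coefficients
-/

set_option autoImplicit false

namespace Pool.Agent.H609.AV

open Finset Real Filter Topology
open Pool.Agent.Q270.AA (pv pd pv_deriv)

variable {D : ℕ}

/-- a set of integers of small diameter -/
lemma int_card {s : Finset ℤ} {L : ℝ} (_hL : 0 ≤ L) (h : ∀ x ∈ s, ∀ y ∈ s, |(x : ℝ) - y| ≤ L) :
    s.card ≤ ⌊L⌋₊ + 1 := by
  rcases s.eq_empty_or_nonempty with h0 | hne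
  · rw [h0]
    simp
  set m := s.min' hne with hm
  have h1 : s ⊆ Finset.Icc m (m + ⌊L⌋₊) := by
    intro x hx
    rw [Finset.mem_Icc]
    refine ⟨s.min'_le x hx, ?_⟩
    have h2 := h x hx m (s.min'_mem hne)
    have h3 : (x : ℝ) - m ≤ L := (le_abs_self _).trans h2
    have h4 : m ≤ x := s.min'_le x hx
    have h5 : (((x - m).toNat : ℕ) : ℝ) ≤ L := by
      have h6 : (((x - m).toNat : ℕ) : ℝ) = ((x - m : ℤ) : ℝ) := by
        have : (((x - m).toNat : ℕ) : ℤ) = x - m := Int.toNat_of_nonneg (by omega)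
        exact_mod_cast this
      rw [h6]
      push_cast
      exact h3
    have h7 := Nat.le_floor h5
    omega
  refine (card_le_card h1).trans ?_
  rw [Int.card_Icc]
  omega

/-- the fibres of the map which forgets one coordinate -/
lemma fibre_card {n : ℕ} (s : Finset (Fin n → ℤ)) (i : Fin n) {L : ℝ} (hL : 0 ≤ L)
    (h : ∀ a ∈ s, ∀ a' ∈ s, Function.update a i 0 = Function.update a' i 0 →
      |(a i : ℝ) - a' i| ≤ L) :
    s.card ≤ (⌊L⌋₊ + 1) * (s.image (fun a => Function.update a i 0)).card := by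
  classical
  refine Finset.card_le_mul_card_image s (⌊L⌋₊ + 1) fun b hb => ?_
  set t := s.filter (fun a => Function.update a i 0 = b) with ht
  have hinj : Set.InjOn (fun a : Fin n → ℤ => a i) t := by
    intro a ha a' ha' haa
    rw [Finset.mem_coe, ht, mem_filter] at ha ha'
    have h1 : Function.update a i 0 = Function.update a' i 0 := ha.2.trans ha'.2.symm
    funext j
    by_cases hj : j = i
    · subst hj
      exact haa
    · have h2 := congrFun h1 j
      rwa [Function.update_of_ne hj, Function.update_of_ne hj] at h2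
  rw [← card_image_of_injOn hinj]
  apply int_card hL
  intro x hx y hy
  obtain ⟨a, ha, rfl⟩ := mem_image.1 hx
  obtain ⟨a', ha', rfl⟩ := mem_image.1 hy
  rw [ht, mem_filter] at ha ha'
  exact h a ha.1 a' ha'.1 (ha.2.trans ha'.2.symm)

/-- the vectors with few nonzero coordinates -/
lemma box_card {n : ℕ} (s : Finset (Fin n → ℤ)) (S : Finset (Fin n)) (H : ℕ)
    (h1 : ∀ a ∈ s, ∀ i, i ∉ S → a i = 0) (h2 : ∀ a ∈ s, ∀ i, |a i| ≤ H) :
    s.card ≤ (2 * H + 1) ^ S.card := by
  classical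
  have h3 : s ⊆ Fintype.piFinset (fun i => if i ∈ S then Finset.Icc (-(H : ℤ)) H else {0}) := by
    intro a ha
    rw [Fintype.mem_piFinset]
    intro i
    by_cases hi : i ∈ S
    · rw [if_pos hi, Finset.mem_Icc]
      exact abs_le.1 (h2 a ha i)
    · rw [if_neg hi, h1 a ha i hi]
      exact Finset.mem_singleton_self _
  refine (card_le_card h3).trans ?_
  rw [Fintype.card_piFinset]
  have h4 : ∀ i, (if i ∈ S then Finset.Icc (-(H : ℤ)) H else ({0} : Finset ℤ)).card =
      if i ∈ S then 2 * H + 1 else 1 := by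
    intro i
    by_cases hi : i ∈ S
    · rw [if_pos hi, if_pos hi, Int.card_Icc]
      omega
    · rw [if_neg hi, if_neg hi, card_singleton]
  rw [prod_congr rfl fun i _ => h4 i, Finset.prod_ite_mem, univ_inter, prod_const]

/-- the second derivative -/
noncomputable def pdd (c : Fin (D + 1) → ℝ) (x : ℝ) : ℝ :=
  ∑ i, c i * (((i : ℕ) : ℝ) * ((((i : ℕ) - 1 : ℕ) : ℝ) * x ^ ((i : ℕ) - 1 - 1)))

lemma pd_deriv (c : Fin (D + 1) → ℝ) (x : ℝ) : HasDerivAt (pd c) (pdd c x) x := by
  unfold pd pdd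
  refine HasDerivAt.fun_sum fun i _ => ?_
  exact ((hasDerivAt_pow _ x).const_mul _).const_mul _

/-- a uniform bound for the second derivative -/
lemma pdd_bound (D : ℕ) (R : ℝ) : ∃ L : ℝ, 0 ≤ L ∧ ∀ (c : Fin (D + 1) → ℝ) (x : ℝ),
    (∀ i, |c i| ≤ 1) → |x| ≤ R → |pdd c x| ≤ L := by
  have hcpt : IsCompact (Metric.closedBall (0 : Fin (D + 1) → ℝ) 1 ×ˢ Metric.closedBall (0 : ℝ) R) :=
    (isCompact_closedBall _ _).prod (isCompact_closedBall _ _)
  have hcont : Continuous fun p : (Fin (D + 1) → ℝ) × ℝ => pdd p.1 p.2 := by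
    unfold pdd
    fun_prop
  obtain ⟨L, hL⟩ := hcpt.exists_bound_of_continuousOn hcont.continuousOn
  refine ⟨|L|, abs_nonneg _, fun c x hc hx => (hL (c, x) ⟨?_, ?_⟩).trans (le_abs_self _)⟩
  · rw [Metric.mem_closedBall, dist_zero_right, pi_norm_le_iff_of_nonneg zero_le_one]
    exact fun i => hc i
  · rw [Metric.mem_closedBall, dist_zero_right]
    exact hx

/-- the value and the derivative at a nearby point -/
lemma nearby {R L : ℝ} {c : Fin (D + 1) → ℝ}
    (hL0 : 0 ≤ L) (hL : ∀ x : ℝ, |x| ≤ R → |pdd c x| ≤ L) {x z η : ℝ} (hη : 0 ≤ η)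
    (hx : |x| ≤ R) (hz : |z| ≤ R) (hxz : |z - x| ≤ η) (h0 : pv c x = 0) (h1 : |pd c x| ≤ η) :
    |pv c z| ≤ (1 + L) * η ^ 2 ∧ |pd c z| ≤ (1 + L) * η := by
  have hconv : Convex ℝ (Metric.closedBall (0 : ℝ) R) := convex_closedBall _ _
  have hmem : ∀ y : ℝ, |y| ≤ R → y ∈ Metric.closedBall (0 : ℝ) R := fun y hy => by
    rw [Metric.mem_closedBall, dist_zero_right]
    exact hy
  have hd : ∀ y : ℝ, |y| ≤ R → |pd c y - pd c x| ≤ L * |y - x| := by
    intro y hy
    have h2 := hconv.norm_image_sub_le_of_norm_hasDerivWithin_le (f := pd c) (f' := pdd c) (C := L)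
      (fun w _ => (pd_deriv c w).hasDerivWithinAt)
      (fun w hw => hL w (by
        rw [Metric.mem_closedBall, dist_zero_right] at hw
        exact hw)) (hmem x hx) (hmem y hy)
    exact h2
  constructor
  · -- on the segment between the points
    have hseg : ∀ w ∈ segment ℝ x z, |w| ≤ R ∧ |w - x| ≤ η := by
      intro w hw
      refine ⟨?_, ?_⟩
      · have := hconv.segment_subset (hmem x hx) (hmem z hz) hw
        rw [Metric.mem_closedBall, dist_zero_right] at this
        exact this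
      · have := (convex_closedBall x η).segment_subset
          (Metric.mem_closedBall_self hη) (show z ∈ Metric.closedBall x η by
            rw [Metric.mem_closedBall, Real.dist_eq]; exact hxz) hw
        rwa [Metric.mem_closedBall, Real.dist_eq] at this
    have h2 := (convex_segment x z).norm_image_sub_le_of_norm_hasDerivWithin_le (f := pv c)
      (f' := pd c) (C := (1 + L) * η) (fun w _ => (pv_deriv c w).hasDerivWithinAt)
      (fun w hw => by
        obtain ⟨g1, g2⟩ := hseg w hw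
        have g3 := hd w g1
        have g4 : |pd c w| ≤ |pd c w - pd c x| + |pd c x| := by
          have := abs_add_le (pd c w - pd c x) (pd c x)
          rwa [sub_add_cancel] at this
        rw [Real.norm_eq_abs]
        nlinarith) (left_mem_segment ℝ x z) (right_mem_segment ℝ x z)
    rw [h0, sub_zero, Real.norm_eq_abs, Real.norm_eq_abs] at h2
    refine h2.trans ?_
    have : 0 ≤ (1 + L) * η := by positivity
    nlinarith
  · have g3 := hd z hz
    have g4 : |pd c z| ≤ |pd c z - pd c x| + |pd c x| := by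
      have := abs_add_le (pd c z - pd c x) (pd c x)
      rwa [sub_add_cancel] at this
    nlinarith

/-- the polynomials with a small value and a small derivative at a given point -/
lemma point_count {E : Finset (Fin (D + 1))} {e f : Fin (D + 1)} (he : e ∈ E) (hf : f ∈ E)
    (hfe : (f : ℕ) < e) {R K η : ℝ} (hR : 1 ≤ R) (hK : 0 ≤ K) (hη : 0 < η) (hη1 : η ≤ 1) {z : ℝ}
    (hz1 : 1 / (2 * R) ≤ |z|) (hz2 : |z| ≤ R) {H : ℕ} (hH : 1 ≤ H) (y : Fin (D + 1) → ℝ)
    (Ts : Finset (Fin (D + 1) → ℤ))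
    (h : ∀ a ∈ Ts, (∀ i, i ∉ E → a i = 0) ∧ (∀ i, |a i| ≤ H) ∧
      |pv (pt E H y a) z| ≤ K * η ^ 2 ∧ |pd (pt E H y a) z| ≤ K * η) :
    (Ts.card : ℝ) ≤ (2 * K * (2 * R) ^ D * η ^ 2 * H + 1) *
      (2 * (R + D) * K * (2 * R) ^ D * η * H + 1) * (2 * H + 1) ^ (E.card - 2) := by
  classical
  have hHR : (0 : ℝ) < H := by exact_mod_cast hH
  have hz0 : 0 < |z| := lt_of_lt_of_le (by positivity) hz1
  have hef : e ≠ f := by
    rintro rfl
    exact lt_irrefl _ hfe
  have hpow : ∀ i : Fin (D + 1), 1 ≤ (2 * R) ^ D * |z| ^ (i : ℕ) := by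
    intro i
    have h1 : 1 ≤ 2 * R * |z| := by
      rw [div_le_iff₀ (by positivity)] at hz1
      linarith
    have h2 : (2 * R) ^ (i : ℕ) ≤ (2 * R) ^ D := pow_le_pow_right₀ (by linarith) (by omega)
    calc (1 : ℝ) ≤ (2 * R * |z|) ^ (i : ℕ) := one_le_pow₀ h1
      _ = (2 * R) ^ (i : ℕ) * |z| ^ (i : ℕ) := mul_pow _ _ _
      _ ≤ _ := by gcongr
  -- the first coordinate
  have hstep1 : ∀ a ∈ Ts, ∀ a' ∈ Ts, Function.update a f 0 = Function.update a' f 0 →
      |(a f : ℝ) - a' f| ≤ 2 * K * (2 * R) ^ D * η ^ 2 * H := by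
    intro a ha a' ha' haa
    obtain ⟨-, -, g1, -⟩ := h a ha
    obtain ⟨-, -, g1', -⟩ := h a' ha'
    have h2 : pv (pt E H y a) z - pv (pt E H y a') z =
        ((a f : ℝ) / H - (a' f : ℝ) / H) * z ^ (f : ℕ) := by
      unfold pv
      rw [← sum_sub_distrib, Finset.sum_eq_single_of_mem f (mem_univ _)]
      · rw [pt_mem hf, pt_mem hf]
        ring
      · intro i _ hi
        have h3 : pt E H y a i = pt E H y a' i := by
          by_cases hiE : i ∈ E
          · rw [pt_mem hiE, pt_mem hiE]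
            have := congrFun haa i
            rw [Function.update_of_ne hi, Function.update_of_ne hi] at this
            rw [this]
          · rw [pt_not hiE, pt_not hiE]
        rw [h3, sub_self]
    have h3 : |((a f : ℝ) / H - (a' f : ℝ) / H) * z ^ (f : ℕ)| ≤ 2 * K * η ^ 2 := by
      rw [← h2]
      refine (abs_sub _ _).trans ?_
      linarith
    rw [abs_mul, abs_pow, ← sub_div, abs_div, abs_of_pos hHR] at h3
    have h4 := hpow f
    calc |(a f : ℝ) - a' f| = |(a f : ℝ) - a' f| / H * H * 1 := by field_simp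
      _ ≤ |(a f : ℝ) - a' f| / H * H * ((2 * R) ^ D * |z| ^ (f : ℕ)) := by gcongr
      _ = (|(a f : ℝ) - a' f| / H * |z| ^ (f : ℕ)) * ((2 * R) ^ D * H) := by ring
      _ ≤ (2 * K * η ^ 2) * ((2 * R) ^ D * H) := by gcongr
      _ = _ := by ring
  -- the second coordinate
  set Ts1 := Ts.image (fun a => Function.update a f 0) with hTs1
  set A3 : (Fin (D + 1) → ℤ) → ℝ := fun a =>
    ∑ i : Fin (D + 1), (((i : ℕ) : ℝ) - ((f : ℕ) : ℝ)) * (pt E H y a i * z ^ (i : ℕ)) with hA3
  have hA3a : ∀ a, A3 a = z * pd (pt E H y a) z - f * pv (pt E H y a) z := by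
    intro a
    rw [hA3]
    unfold pd pv
    rw [mul_sum, mul_sum, ← sum_sub_distrib]
    refine sum_congr rfl fun i _ => ?_
    have : z * (pt E H y a i * (((i : ℕ) : ℝ) * z ^ ((i : ℕ) - 1))) =
        ((i : ℕ) : ℝ) * (pt E H y a i * z ^ (i : ℕ)) := by
      rcases Nat.eq_zero_or_pos (i : ℕ) with hi | hi
      · rw [hi]
        simp
      · have h2 : z ^ (i : ℕ) = z * z ^ ((i : ℕ) - 1) := by
          rw [← pow_succ']
          congr 1
          omega
        rw [h2]
        ring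
    rw [this]
    ring
  have hA3u : ∀ a, A3 (Function.update a f 0) = A3 a := by
    intro a
    rw [hA3]
    refine sum_congr rfl fun i _ => ?_
    by_cases hi : i = f
    · subst hi
      simp
    · have : pt E H y (Function.update a f 0) i = pt E H y a i := by
        by_cases hiE : i ∈ E
        · rw [pt_mem hiE, pt_mem hiE, Function.update_of_ne hi]
        · rw [pt_not hiE, pt_not hiE]
      rw [this]
  have hA3b : ∀ b ∈ Ts1, |A3 b| ≤ (R + D) * K * η := by
    intro b hb
    obtain ⟨a, ha, rfl⟩ := mem_image.1 hb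
    obtain ⟨-, -, g1, g2⟩ := h a ha
    rw [hA3u, hA3a]
    have hfD : ((f : ℕ) : ℝ) ≤ D := by
      have : (f : ℕ) ≤ D := by omega
      exact_mod_cast this
    calc |z * pd (pt E H y a) z - f * pv (pt E H y a) z| ≤
          |z * pd (pt E H y a) z| + |(f : ℕ) * pv (pt E H y a) z| := abs_sub _ _
      _ = |z| * |pd (pt E H y a) z| + ((f : ℕ) : ℝ) * |pv (pt E H y a) z| := by
          rw [abs_mul, abs_mul, Nat.abs_cast]
      _ ≤ R * (K * η) + D * (K * η ^ 2) := by gcongr
      _ ≤ R * (K * η) + D * (K * η) := by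
          have : η ^ 2 ≤ η := by nlinarith
          gcongr
      _ = _ := by ring
  have hstep2 : ∀ b ∈ Ts1, ∀ b' ∈ Ts1, Function.update b e 0 = Function.update b' e 0 →
      |(b e : ℝ) - b' e| ≤ 2 * (R + D) * K * (2 * R) ^ D * η * H := by
    intro b hb b' hb' hbb
    have g1 := hA3b b hb
    have g1' := hA3b b' hb'
    have h2 : A3 b - A3 b' =
        (((e : ℕ) : ℝ) - f) * (((b e : ℝ) / H - (b' e : ℝ) / H) * z ^ (e : ℕ)) := by
      rw [hA3]
      simp only
      rw [← sum_sub_distrib, Finset.sum_eq_single_of_mem e (mem_univ _)]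
      · rw [pt_mem he, pt_mem he]
        ring
      · intro i _ hi
        have h3 : pt E H y b i = pt E H y b' i := by
          by_cases hiE : i ∈ E
          · rw [pt_mem hiE, pt_mem hiE]
            have := congrFun hbb i
            rw [Function.update_of_ne hi, Function.update_of_ne hi] at this
            rw [this]
          · rw [pt_not hiE, pt_not hiE]
        rw [h3, sub_self]
    have h5 : (1 : ℝ) ≤ ((e : ℕ) : ℝ) - f := by
      have : ((f : ℕ) : ℝ) + 1 ≤ ((e : ℕ) : ℝ) := by exact_mod_cast hfe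
      linarith
    have h3 : |((b e : ℝ) / H - (b' e : ℝ) / H) * z ^ (e : ℕ)| ≤ 2 * ((R + D) * K * η) := by
      have h6 : |(((e : ℕ) : ℝ) - f) * (((b e : ℝ) / H - (b' e : ℝ) / H) * z ^ (e : ℕ))| ≤
          2 * ((R + D) * K * η) := by
        rw [← h2]
        refine (abs_sub _ _).trans ?_
        linarith
      rw [abs_mul, abs_of_pos (by linarith)] at h6
      refine le_trans ?_ h6
      nlinarith [abs_nonneg (((b e : ℝ) / H - (b' e : ℝ) / H) * z ^ (e : ℕ))]
    rw [abs_mul, abs_pow, ← sub_div, abs_div, abs_of_pos hHR] at h3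
    have h4 := hpow e
    calc |(b e : ℝ) - b' e| = |(b e : ℝ) - b' e| / H * H * 1 := by field_simp
      _ ≤ |(b e : ℝ) - b' e| / H * H * ((2 * R) ^ D * |z| ^ (e : ℕ)) := by gcongr
      _ = (|(b e : ℝ) - b' e| / H * |z| ^ (e : ℕ)) * ((2 * R) ^ D * H) := by ring
      _ ≤ (2 * ((R + D) * K * η)) * ((2 * R) ^ D * H) := by gcongr
      _ = _ := by ring
  have hL1 : 0 ≤ 2 * K * (2 * R) ^ D * η ^ 2 * H := by positivity
  have hL2 : 0 ≤ 2 * (R + D) * K * (2 * R) ^ D * η * H := by positivity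
  have c1 := fibre_card Ts f hL1 hstep1
  have c2 := fibre_card Ts1 e hL2 hstep2
  set Ts2 := Ts1.image (fun a => Function.update a e 0) with hTs2
  have c3 : Ts2.card ≤ (2 * H + 1) ^ ((E.erase e).erase f).card := by
    apply box_card
    · intro b hb i hi
      obtain ⟨b', hb', rfl⟩ := mem_image.1 hb
      obtain ⟨a, ha, rfl⟩ := mem_image.1 hb'
      by_cases hie : i = e
      · subst hie
        simp
      · rw [Function.update_of_ne hie]
        by_cases hif : i = f
        · subst hif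
          simp
        · rw [Function.update_of_ne hif]
          apply (h a ha).1
          intro hiE
          exact hi (mem_erase.2 ⟨hif, mem_erase.2 ⟨hie, hiE⟩⟩)
    · intro b hb i
      obtain ⟨b', hb', rfl⟩ := mem_image.1 hb
      obtain ⟨a, ha, rfl⟩ := mem_image.1 hb'
      by_cases hie : i = e
      · subst hie
        simp
      · rw [Function.update_of_ne hie]
        by_cases hif : i = f
        · subst hif
          simp
        · rw [Function.update_of_ne hif]
          exact (h a ha).2.1 i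
  have hcardE : ((E.erase e).erase f).card = E.card - 2 := by
    rw [card_erase_of_mem (mem_erase.2 ⟨Ne.symm hef, hf⟩), card_erase_of_mem he]
    omega
  rw [hcardE] at c3
  have c4 : Ts.card ≤ (⌊2 * K * (2 * R) ^ D * η ^ 2 * H⌋₊ + 1) *
      ((⌊2 * (R + D) * K * (2 * R) ^ D * η * H⌋₊ + 1) * (2 * H + 1) ^ (E.card - 2)) :=
    c1.trans (Nat.mul_le_mul_left _ (c2.trans (Nat.mul_le_mul_left _ c3)))
  calc (Ts.card : ℝ) ≤ (((⌊2 * K * (2 * R) ^ D * η ^ 2 * H⌋₊ + 1) *
      ((⌊2 * (R + D) * K * (2 * R) ^ D * η * H⌋₊ + 1) * (2 * H + 1) ^ (E.card - 2)) : ℕ) : ℝ) := by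
        exact_mod_cast c4
    _ = ((⌊2 * K * (2 * R) ^ D * η ^ 2 * H⌋₊ : ℝ) + 1) *
      (((⌊2 * (R + D) * K * (2 * R) ^ D * η * H⌋₊ : ℝ) + 1) * (2 * H + 1) ^ (E.card - 2)) := by
        push_cast
        rfl
    _ ≤ (2 * K * (2 * R) ^ D * η ^ 2 * H + 1) *
      ((2 * (R + D) * K * (2 * R) ^ D * η * H + 1) * (2 * H + 1) ^ (E.card - 2)) := by
        have e1 := Nat.floor_le hL1
        have e2 := Nat.floor_le hL2
        gcongr
    _ = _ := by ring

/-- few polynomials have a nearly multiple root between `1 / R` and `R` -/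
theorem near_count {E : Finset (Fin (D + 1))} {e f : Fin (D + 1)} (he : e ∈ E) (hf : f ∈ E)
    (hfe : (f : ℕ) < e) {R : ℝ} (hR : 1 ≤ R) {ζ : ℝ} (hζ : 0 < ζ) :
    ∃ η : ℝ, 0 < η ∧ ∃ H₀ : ℕ, ∀ H : ℕ, H₀ ≤ H → ∀ y : Fin (D + 1) → ℝ, (∀ i, |y i| ≤ 1) →
      ∀ Ts : Finset (Fin (D + 1) → ℤ),
      (∀ a ∈ Ts, (∀ i, i ∉ E → a i = 0) ∧ (∀ i, |a i| ≤ H) ∧ ∃ x : ℝ, 1 / R ≤ |x| ∧ |x| ≤ R ∧
        pv (pt E H y a) x = 0 ∧ |pd (pt E H y a) x| ≤ η) →
      (Ts.card : ℝ) ≤ ζ * (H : ℝ) ^ E.card := by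
  classical
  obtain ⟨L, hL0, hL⟩ := pdd_bound D R
  set K : ℝ := 1 + L with hK
  have hK0 : 0 ≤ K := by positivity
  set α1 : ℝ := 2 * K * (2 * R) ^ D + 1 with hα1
  set α2 : ℝ := 2 * (R + D) * K * (2 * R) ^ D + 1 with hα2
  have hα1p : 0 < α1 := by positivity
  have hα2p : 0 < α2 := by positivity
  set C : ℝ := (2 * R + 1) * (α1 * α2 * 3 ^ E.card) with hC
  have hCp : 0 < C := by positivity
  set η : ℝ := min (1 / (2 * R)) (min 1 (ζ / C)) with hη
  have hη0 : 0 < η := lt_min (by positivity) (lt_min one_pos (by positivity))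
  have hη1 : η ≤ 1 := (min_le_right _ _).trans (min_le_left _ _)
  have hηR : η ≤ 1 / (2 * R) := min_le_left _ _
  have hηC : η ≤ ζ / C := (min_le_right _ _).trans (min_le_right _ _)
  obtain ⟨H0, hH0⟩ := exists_nat_gt (1 / η ^ 2)
  refine ⟨η, hη0, max H0 1, fun H hH y hy Ts hTs => ?_⟩
  have hH1 : 1 ≤ H := le_of_max_le_right hH
  have hHR : (0 : ℝ) < H := by exact_mod_cast hH1
  have hHR1 : (1 : ℝ) ≤ H := by exact_mod_cast hH1
  have hHη : 1 ≤ η ^ 2 * H := by
    have h1 : 1 / η ^ 2 < H := lt_of_lt_of_le hH0 (by exact_mod_cast le_of_max_le_left hH)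
    rw [div_lt_iff₀ (by positivity)] at h1
    linarith
  have hE2 : 2 ≤ E.card := by
    have h1 : ({e, f} : Finset (Fin (D + 1))) ⊆ E := by
      intro i hi
      rw [mem_insert, mem_singleton] at hi
      rcases hi with rfl | rfl
      · exact he
      · exact hf
    have h2 := card_le_card h1
    rwa [card_pair (by rintro rfl; exact lt_irrefl _ hfe)] at h2
  set J : ℕ := ⌊2 * R / η⌋₊ with hJ
  set zj : ℕ → ℝ := fun j => -R + j * η with hzj
  set Bj : ℕ → Finset (Fin (D + 1) → ℤ) := fun j => Ts.filter (fun a =>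
    |pv (pt E H y a) (zj j)| ≤ K * η ^ 2 ∧ |pd (pt E H y a) (zj j)| ≤ K * η ∧
      1 / (2 * R) ≤ |zj j| ∧ |zj j| ≤ R) with hBj
  have hcover : Ts ⊆ (range (J + 1)).biUnion Bj := by
    intro a ha
    obtain ⟨g1, g2, x, hx1, hx2, hx3, hx4⟩ := hTs a ha
    rw [mem_biUnion]
    have hxl := (abs_le.1 hx2).1
    have hxr := (abs_le.1 hx2).2
    have hq0 : 0 ≤ (x + R) / η := by
      apply div_nonneg _ hη0.le
      linarith
    set j : ℕ := ⌊(x + R) / η⌋₊ with hj
    have j1 : (j : ℝ) ≤ (x + R) / η := Nat.floor_le hq0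
    have j2 : (x + R) / η < j + 1 := Nat.lt_floor_add_one _
    rw [le_div_iff₀ hη0] at j1
    rw [div_lt_iff₀ hη0] at j2
    have z1 : zj j ≤ x := by
      rw [hzj]
      simp only
      linarith
    have z2 : x - η ≤ zj j := by
      rw [hzj]
      simp only
      linarith
    have z3 : -R ≤ zj j := by
      rw [hzj]
      simp only
      have : 0 ≤ (j : ℝ) * η := by positivity
      linarith
    have z4 : |zj j| ≤ R := abs_le.2 ⟨z3, by linarith⟩
    have z5 : |zj j - x| ≤ η := by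
      rw [abs_le]
      constructor <;> linarith
    have z6 : 1 / (2 * R) ≤ |zj j| := by
      have h1 : |x| ≤ |zj j| + |zj j - x| := by
        have := abs_sub_abs_le_abs_sub x (zj j)
        rw [abs_sub_comm x (zj j)] at this
        linarith
      have h2 : 1 / R = 1 / (2 * R) + 1 / (2 * R) := by
        field_simp
        ring
      linarith
    refine ⟨j, ?_, ?_⟩
    · rw [mem_range, hJ]
      have : j ≤ ⌊2 * R / η⌋₊ := by
        apply Nat.floor_le_floor
        apply div_le_div_of_nonneg_right _ hη0.le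
        linarith
      omega
    · rw [hBj]
      simp only [mem_filter]
      have hc : ∀ i, |pt E H y a i| ≤ 1 := by
        intro i
        by_cases hi : i ∈ E
        · rw [pt_mem hi, abs_div, abs_of_pos hHR, div_le_one hHR]
          have := g2 i
          have h2 : ((|a i| : ℤ) : ℝ) ≤ ((H : ℤ) : ℝ) := by exact_mod_cast this
          push_cast at h2
          exact h2
        · rw [pt_not hi]
          exact hy i
      have h3 := nearby (R := R) hL0 (fun w hw => hL _ w hc hw) hη0.le hx2 z4 z5 hx3 hx4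
      exact ⟨ha, h3.1, h3.2, z6, z4⟩
  have hone : ∀ j ∈ range (J + 1), ((Bj j).card : ℝ) ≤ α1 * α2 * 3 ^ E.card * η ^ 3 *
      (H : ℝ) ^ E.card := by
    intro j _
    rcases (Bj j).eq_empty_or_nonempty with h0 | ⟨a0, ha0⟩
    · rw [h0, card_empty, Nat.cast_zero]
      positivity
    have ha0' := (mem_filter.1 ha0).2
    have h1 := point_count he hf hfe hR hK0 hη0 hη1 ha0'.2.2.1 ha0'.2.2.2 hH1 y (Bj j)
      (fun a ha => by
        obtain ⟨h2, h3, h4, -⟩ := mem_filter.1 ha
        obtain ⟨g1, g2, -⟩ := hTs a h2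
        exact ⟨g1, g2, h3, h4⟩)
    refine h1.trans ?_
    have f1 : 2 * K * (2 * R) ^ D * η ^ 2 * H + 1 ≤ α1 * (η ^ 2 * H) := by
      rw [hα1]
      linarith
    have hη2 : η ^ 2 ≤ η := by nlinarith
    have f2 : 2 * (R + D) * K * (2 * R) ^ D * η * H + 1 ≤ α2 * (η * H) := by
      rw [hα2]
      have : η ^ 2 * H ≤ η * H := by gcongr
      linarith
    have f3 : (2 * (H : ℝ) + 1) ^ (E.card - 2) ≤ 3 ^ E.card * (H : ℝ) ^ (E.card - 2) := by
      calc (2 * (H : ℝ) + 1) ^ (E.card - 2) ≤ (3 * (H : ℝ)) ^ (E.card - 2) := by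
            gcongr
            linarith
        _ = 3 ^ (E.card - 2) * (H : ℝ) ^ (E.card - 2) := mul_pow _ _ _
        _ ≤ _ := by
            have : (3 : ℝ) ^ (E.card - 2) ≤ 3 ^ E.card :=
              pow_le_pow_right₀ (by norm_num) (by omega)
            gcongr
    have f4 : (H : ℝ) ^ E.card = (H : ℝ) * H * (H : ℝ) ^ (E.card - 2) := by
      rw [← pow_two, ← pow_add]
      congr 1
      omega
    have p1 : 0 ≤ 2 * K * (2 * R) ^ D * η ^ 2 * H + 1 := by positivity
    have p2 : 0 ≤ 2 * (R + D) * K * (2 * R) ^ D * η * H + 1 := by positivity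
    calc (2 * K * (2 * R) ^ D * η ^ 2 * H + 1) *
          (2 * (R + D) * K * (2 * R) ^ D * η * H + 1) * (2 * H + 1) ^ (E.card - 2) ≤
          (α1 * (η ^ 2 * H)) * (α2 * (η * H)) * (3 ^ E.card * (H : ℝ) ^ (E.card - 2)) := by
            gcongr
      _ = _ := by
          rw [f4]
          ring
  calc (Ts.card : ℝ) ≤ (((range (J + 1)).biUnion Bj).card : ℝ) := by
        exact_mod_cast card_le_card hcover
    _ ≤ ((∑ j ∈ range (J + 1), (Bj j).card : ℕ) : ℝ) := by exact_mod_cast card_biUnion_le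
    _ = ∑ j ∈ range (J + 1), ((Bj j).card : ℝ) := by push_cast; rfl
    _ ≤ ∑ _j ∈ range (J + 1), α1 * α2 * 3 ^ E.card * η ^ 3 * (H : ℝ) ^ E.card :=
        sum_le_sum hone
    _ = (J + 1) * (α1 * α2 * 3 ^ E.card * η ^ 3 * (H : ℝ) ^ E.card) := by
        rw [sum_const, card_range, nsmul_eq_mul]
        push_cast
        rfl
    _ ≤ ((2 * R + 1) / η) * (α1 * α2 * 3 ^ E.card * η ^ 3 * (H : ℝ) ^ E.card) := by
        have hJ1 : (J : ℝ) ≤ 2 * R / η := Nat.floor_le (by positivity)
        have hJ2 : (1 : ℝ) ≤ 1 / η := by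
          rw [le_div_iff₀ hη0]
          linarith
        have : (J : ℝ) + 1 ≤ (2 * R + 1) / η := by
          rw [add_div]
          linarith
        gcongr
    _ = C * η * η * (H : ℝ) ^ E.card := by
        rw [hC]
        field_simp
    _ ≤ C * η * 1 * (H : ℝ) ^ E.card := by gcongr
    _ ≤ ζ * (H : ℝ) ^ E.card := by
        rw [le_div_iff₀ hCp] at hηC
        have : C * η * 1 ≤ ζ := by linarith
        gcongr

end Pool.Agent.H609.AV
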