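import Pool.Graph.R_pool_sql_team_seeded_3997aac3.Q270.RT.Glob

/-!
# Exponential sums over the values of analytic functions at rational points, with parameters

The ambient space is `Fin n → ℝ`; the coordinates in `S` are the variables (rational numbers with the
denominator `M`), the other coordinates are parameters. Adapted from `Q270.RT.Line` and
`Q270.RT.Box` (the case without parameters).
-/

set_option autoImplicit false

namespace Pool.Agent.H609.AV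

open Finset Real Filter Topology MeasureTheory
open Pool.Agent.H469R2.NK (e norm_e e_add)
open Pool.Agent.Q270.RT (InC rv line_one)
open Pool.Agent.Y951.TU (hat lin lin_apply unif unif_prob integral_unif)
open Pool.Agent.Q270.MB (SizeB)

variable {n m : ℕ}

/-- the directions along which only the variables move -/
def Dir (S : Finset (Fin n)) (v : Fin n → ℤ) : Prop := ∀ i, i ∉ S → v i = 0

/-- derivatives along the lines in the integer directions of the variables -/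
structure ChainS (S : Finset (Fin n)) (c0 : Fin n → ℝ) (δ : ℝ) (K : ℕ)
    (ψ : (Fin n → ℤ) → Fin m → ℕ → (Fin n → ℝ) → ℝ) : Prop where
  der : ∀ v j k, ∀ c, InC c0 δ c →
    HasDerivAt (fun s : ℝ => ψ v j k (c + s • rv v)) (ψ v j (k + 1) c) 0
  zero : ∀ v j, ψ v j 0 = ψ 0 j 0
  bdd : ∀ v k, ∃ C : ℝ, ∀ j c, InC c0 δ c → |ψ v j k c| ≤ C
  big : ∃ (F : Finset ((Fin n → ℤ) × ℕ)) (η : ℝ), 0 < η ∧ (∀ i ∈ F, K ≤ i.2 ∧ Dir S i.1) ∧
    ∀ u : Fin m → ℝ, ‖u‖ = 1 → ∃ i ∈ F, ∀ c, InC c0 δ c → η ≤ |∑ j, u j * ψ i.1 j i.2 c|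

/-- for every frequency there is a good direction -/
theorem line_sum {S : Finset (Fin n)} {c0 : Fin n → ℝ} {δ : ℝ} {K : ℕ}
    {ψ : (Fin n → ℤ) → Fin m → ℕ → (Fin n → ℝ) → ℝ} (H : ChainS S c0 δ K ψ) (κ A : ℝ) (hκ : 0 < κ)
    (hK3 : 3 ≤ K) (hKA : A + 2 ≤ K) :
    ∃ (F : Finset (Fin n → ℤ)), (∀ v ∈ F, Dir S v) ∧ ∃ ρ : ℝ, 0 < ρ ∧ ∃ M0 : ℕ, ∀ M : ℕ,
      M0 ≤ M → ∀ l : Fin m → ℝ,
      (M : ℝ) ^ κ ≤ ‖l‖ → ‖l‖ ≤ (M : ℝ) ^ A → ∃ v ∈ F, ∀ (c : Fin n → ℝ) (ℓ : ℕ), ℓ ≤ M →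
      (∀ t : ℝ, 0 ≤ t → t ≤ ℓ → InC c0 δ (c + (t / M) • rv v)) →
      ‖∑ t ∈ range ℓ, e (∑ j, l j * ψ 0 j 0 (c + (((t : ℕ) : ℝ) / M) • rv v))‖ ≤
        (M : ℝ) ^ (1 - ρ) := by
  classical
  obtain ⟨F, η, hη, hFK, hbig⟩ := H.big
  have hone : ∀ i : (Fin n → ℤ) × ℕ, ∃ ρ : ℝ, 0 < ρ ∧ ∃ M0 : ℕ, i ∈ F → ∀ M : ℕ, M0 ≤ M →
      ∀ l : Fin m → ℝ, (M : ℝ) ^ κ ≤ ‖l‖ → ‖l‖ ≤ (M : ℝ) ^ A →
      (∀ c, InC c0 δ c → η ≤ |∑ j, (l j / ‖l‖) * ψ i.1 j i.2 c|) →
      ∀ (c : Fin n → ℝ) (ℓ : ℕ), ℓ ≤ M →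
      (∀ t : ℝ, 0 ≤ t → t ≤ ℓ → InC c0 δ (c + (t / M) • rv i.1)) →
      ‖∑ t ∈ range ℓ, e (∑ j, l j * ψ i.1 j 0 (c + (((t : ℕ) : ℝ) / M) • rv i.1))‖ ≤
        (M : ℝ) ^ (1 - ρ) := by
    rintro ⟨v, i⟩
    by_cases hiF : (v, i) ∈ F
    swap
    · exact ⟨1, one_pos, 0, fun h => absurd h hiF⟩
    have hi := (hFK _ hiF).1
    simp only at hi
    obtain ⟨K1, hK1⟩ : ∃ K1 : ℕ, i = K1 + 2 := ⟨i - 2, by omega⟩
    subst hK1
    obtain ⟨ρ, hρ, M0, hM0⟩ := line_one (ψ := ψ v) (H.der v) (H.bdd v) hη κ A hκ K1 (by omega)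
      (hKA.trans (by exact_mod_cast hi))
    exact ⟨ρ, hρ, M0, fun _ => hM0⟩
  choose ρ hρ M0 hM0 using hone
  have hFne : (insert (0, 0) F).Nonempty := Finset.insert_nonempty _ _
  refine ⟨F.image Prod.fst, ?_, (insert (0, 0) F).inf' hFne ρ,
    (Finset.lt_inf'_iff _).2 fun i _ => hρ i, max 1 ((insert (0, 0) F).sup M0), ?_⟩
  · intro v hv
    obtain ⟨i, hi, rfl⟩ := Finset.mem_image.1 hv
    exact (hFK i hi).2
  intro M hM l hl1 hl2
  have hM1 : (1 : ℝ) ≤ M := by exact_mod_cast le_of_max_le_left hM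
  have hMp : (0 : ℝ) < M := by linarith
  have hT0 : 0 < ‖l‖ := lt_of_lt_of_le (by positivity) hl1
  obtain ⟨i, hiF, hi⟩ := hbig (fun j => l j / ‖l‖) (by
    have h1 : (fun j => l j / ‖l‖) = ‖l‖⁻¹ • l := by
      funext j
      rw [Pi.smul_apply, smul_eq_mul, div_eq_inv_mul]
    rw [h1, norm_smul, norm_inv, norm_norm, inv_mul_cancel₀ hT0.ne'])
  refine ⟨i.1, Finset.mem_image_of_mem _ hiF, ?_⟩
  intro c ℓ hℓM hin
  have him : i ∈ insert (0, 0) F := Finset.mem_insert_of_mem hiF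
  have h1 := hM0 i hiF M ((Finset.le_sup him).trans (le_of_max_le_right hM)) l hl1 hl2 hi c
    ℓ hℓM hin
  simp only [H.zero i.1] at h1
  refine h1.trans ?_
  apply Real.rpow_le_rpow_of_exponent_le hM1
  have := Finset.inf'_le ρ him
  linarith

/-- the point with the variables `a i / M` and the parameters `y i` -/
noncomputable def pt (S : Finset (Fin n)) (M : ℕ) (y : Fin n → ℝ) (a : Fin n → ℤ) : Fin n → ℝ :=
  open Classical in fun i => if i ∈ S then (a i : ℝ) / M else y i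

lemma pt_mem {S : Finset (Fin n)} {M : ℕ} {y : Fin n → ℝ} {a : Fin n → ℤ} {i : Fin n}
    (hi : i ∈ S) : pt S M y a i = (a i : ℝ) / M := by
  unfold pt
  rw [if_pos hi]

lemma pt_not {S : Finset (Fin n)} {M : ℕ} {y : Fin n → ℝ} {a : Fin n → ℤ} {i : Fin n}
    (hi : i ∉ S) : pt S M y a i = y i := by
  unfold pt
  rw [if_neg hi]

lemma pt_add {S : Finset (Fin n)} {M : ℕ} {y : Fin n → ℝ} {a v : Fin n → ℤ} (hv : Dir S v)
    (t : ℕ) : pt S M y (a + (t : ℤ) • v) = pt S M y a + ((t : ℝ) / M) • rv v := by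
  funext i
  rw [Pi.add_apply, Pi.smul_apply, smul_eq_mul]
  by_cases hi : i ∈ S
  · rw [pt_mem hi, pt_mem hi]
    unfold rv
    rw [Pi.add_apply, Pi.smul_apply, smul_eq_mul]
    push_cast
    ring
  · rw [pt_not hi, pt_not hi]
    unfold rv
    rw [hv i hi]
    push_cast
    ring

/-- the boxes -/
structure BoxS (S : Finset (Fin n)) (c0 : Fin n → ℝ) (δ γ : ℝ) (M : ℕ) (J : Fin n → Finset ℤ)
    (y : Fin n → ℝ) : Prop where
  mem : ∀ i ∈ S, ∀ t ∈ J i, |(t : ℝ) / M - c0 i| ≤ δ / 2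
  line : ∀ i ∈ S, ∃ (p : ℤ) (ℓ : ℕ), J i = Finset.Ico p (p + ℓ) ∧ γ * M ≤ ℓ
  par : ∀ i, i ∉ S → |y i - c0 i| ≤ δ / 2

/-- shifting the summation -/
lemma box_shift {S : Finset (Fin n)} {c0 : Fin n → ℝ} {δ γ : ℝ} {M : ℕ} {J : Fin n → Finset ℤ}
    {y : Fin n → ℝ} (hJ : BoxS S c0 δ γ M J y) (hγM : 0 < γ * M) (f : (Fin n → ℤ) → ℂ)
    (hf : ∀ a, ‖f a‖ ≤ 1) (w : Fin n → ℤ) (hw : Dir S w) :
    ‖∑ a ∈ Fintype.piFinset J, f a - ∑ a ∈ Fintype.piFinset J, f (a + w)‖ ≤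
      2 * (∑ i, |(w i : ℝ)|) / (γ * M) * (Fintype.piFinset J).card := by
  classical
  set P := Fintype.piFinset J with hP
  set P' := P.image (fun a => a + w) with hP'
  have hinj : Function.Injective (fun a : Fin n → ℤ => a + w) := add_left_injective w
  have h1 : ∑ a ∈ P, f (a + w) = ∑ a ∈ P', f a := by
    rw [hP', sum_image (fun x _ y _ h => hinj h)]
  have hcard' : P'.card = P.card := card_image_of_injective _ hinj
  have hmem' : ∀ a, a ∈ P' ↔ a - w ∈ P := by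
    intro a
    rw [hP', mem_image]
    constructor
    · rintro ⟨x, hx, rfl⟩
      simpa using hx
    · intro h
      exact ⟨a - w, h, by simp⟩
  have h2 : ∑ a ∈ P, f a - ∑ a ∈ P', f a = ∑ a ∈ P \ P', f a - ∑ a ∈ P' \ P, f a := by
    have e1 : ∑ a ∈ P, f a = ∑ a ∈ P \ P', f a + ∑ a ∈ P ∩ P', f a := by
      rw [← sum_union (disjoint_sdiff_inter P P'), Finset.sdiff_union_inter]
    have e2 : ∑ a ∈ P', f a = ∑ a ∈ P' \ P, f a + ∑ a ∈ P ∩ P', f a := by
      rw [inter_comm, ← sum_union (disjoint_sdiff_inter P' P), Finset.sdiff_union_inter]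
    rw [e1, e2]
    ring
  have h3 : (P \ P').card = (P' \ P).card := by
    have e1 := card_sdiff_add_card_inter P P'
    have e2 := card_sdiff_add_card_inter P' P
    rw [inter_comm] at e2
    omega
  have h4 : ((P \ P').card : ℝ) ≤ (∑ i, |(w i : ℝ)|) / (γ * M) * P.card := by
    have hsub : P \ P' ⊆ univ.biUnion fun i => P.filter (fun a => a i - w i ∉ J i) := by
      intro a ha
      rw [Finset.mem_sdiff, hmem'] at ha
      obtain ⟨ha1, ha2⟩ := ha
      rw [hP, Fintype.mem_piFinset] at ha2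
      push Not at ha2
      obtain ⟨i, hi⟩ := ha2
      rw [mem_biUnion]
      exact ⟨i, mem_univ _, mem_filter.2 ⟨ha1, hi⟩⟩
    have hone : ∀ i, ((P.filter (fun a => a i - w i ∉ J i)).card : ℝ) ≤
        |(w i : ℝ)| / (γ * M) * P.card := by
      intro i
      by_cases hiS : i ∈ S
      swap
      · have e0 : P.filter (fun a => a i - w i ∉ J i) = ∅ := by
          rw [Finset.filter_eq_empty_iff]
          intro a ha
          rw [hP, Fintype.mem_piFinset] at ha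
          rw [hw i hiS, sub_zero, not_not]
          exact ha i
        rw [e0, hw i hiS]
        simp
      obtain ⟨p, ℓ, hp, hℓ⟩ := hJ.line i hiS
      have hℓ0 : (0 : ℝ) < ℓ := lt_of_lt_of_le hγM hℓ
      set S : Finset ℤ := (J i).filter (fun t => t - w i ∉ J i) with hS
      have e1 : P.filter (fun a => a i - w i ∉ J i) = P.filter (fun a => a i ∈ S) := by
        refine filter_congr fun a ha => ?_
        rw [hS, mem_filter]
        rw [hP, Fintype.mem_piFinset] at ha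
        exact ⟨fun h => ⟨ha i, h⟩, fun h => h.2⟩
      have e2 := Pool.Agent.Q270.RT.card_coord J i S
      have e3 : J i ∩ S = S := by
        rw [inter_eq_right, hS]
        exact filter_subset _ _
      have e4 : (J i).card = ℓ := by
        rw [hp, Int.card_Ico]
        omega
      have e5 : S.card ≤ (w i).natAbs := by
        rw [hS, hp]
        exact Pool.Agent.Q270.RT.Ico_diff p ℓ (w i)
      rw [e3, e4] at e2
      rw [e1]
      have e6 : ((P.filter (fun a => a i ∈ S)).card : ℝ) * ℓ ≤ |(w i : ℝ)| * P.card := by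
        have e7 : ((P.filter (fun a => a i ∈ S)).card : ℝ) * ℓ = S.card * P.card := by
          have : ((P.filter (fun a => a i ∈ S)).card) * ℓ = S.card * P.card := by
            rw [← e2]
          exact_mod_cast this
        rw [e7]
        have e8 : ((S.card : ℕ) : ℝ) ≤ |(w i : ℝ)| := by
          have : ((S.card : ℕ) : ℝ) ≤ ((w i).natAbs : ℝ) := by exact_mod_cast e5
          rw [Nat.cast_natAbs] at this
          push_cast at this
          exact this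
        exact mul_le_mul_of_nonneg_right e8 (Nat.cast_nonneg _)
      have e9 : (((P.filter (fun a => a i ∈ S)).card : ℕ) : ℝ) ≤ |(w i : ℝ)| / ℓ * P.card := by
        rw [div_mul_eq_mul_div, le_div_iff₀ hℓ0]
        exact e6
      refine e9.trans (mul_le_mul_of_nonneg_right ?_ (Nat.cast_nonneg _))
      exact div_le_div_of_nonneg_left (abs_nonneg _) hγM hℓ
    calc ((P \ P').card : ℝ) ≤
          ((univ.biUnion fun i => P.filter (fun a => a i - w i ∉ J i)).card : ℝ) := by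
          exact_mod_cast card_le_card hsub
      _ ≤ ((∑ i, (P.filter (fun a => a i - w i ∉ J i)).card : ℕ) : ℝ) := by
          exact_mod_cast card_biUnion_le
      _ = ∑ i, ((P.filter (fun a => a i - w i ∉ J i)).card : ℝ) := by push_cast; rfl
      _ ≤ ∑ i, |(w i : ℝ)| / (γ * M) * P.card := sum_le_sum fun i _ => hone i
      _ = _ := by rw [← sum_mul, ← sum_div]
  rw [h1, h2]
  calc ‖∑ a ∈ P \ P', f a - ∑ a ∈ P' \ P, f a‖ ≤ ‖∑ a ∈ P \ P', f a‖ + ‖∑ a ∈ P' \ P, f a‖ :=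
        norm_sub_le _ _
    _ ≤ ((P \ P').card : ℝ) + ((P' \ P).card : ℝ) := by
        gcongr
        · refine (norm_sum_le _ _).trans ((sum_le_sum fun a _ => hf a).trans (le_of_eq ?_))
          rw [sum_const, nsmul_eq_mul, mul_one]
        · refine (norm_sum_le _ _).trans ((sum_le_sum fun a _ => hf a).trans (le_of_eq ?_))
          rw [sum_const, nsmul_eq_mul, mul_one]
    _ = 2 * ((P \ P').card : ℝ) := by
        rw [← h3]
        ring
    _ ≤ 2 * ((∑ i, |(w i : ℝ)|) / (γ * M) * P.card) := by gcongr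
    _ = _ := by ring

/-- the measures; the `j`-th function is multiplied by `M ^ q j` -/
def SBS (S : Finset (Fin n)) (c0 : Fin n → ℝ) (δ γ : ℝ) (q : Fin m → ℕ)
    (Φ : Fin m → (Fin n → ℝ) → ℝ) (M : ℕ) : Set (Measure (Fin m → ℝ)) :=
  {μ | ∃ (J : Fin n → Finset ℤ) (y : Fin n → ℝ), BoxS S c0 δ γ M J y ∧
    (Fintype.piFinset J).Nonempty ∧
    μ = unif (Fintype.piFinset J) (fun a j => (M : ℝ) ^ q j * Φ j (pt S M y a))}

lemma SBS_prob (S : Finset (Fin n)) (c0 : Fin n → ℝ) (δ γ : ℝ) (q : Fin m → ℕ)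
    (Φ : Fin m → (Fin n → ℝ) → ℝ) (M : ℕ)
    (_hM : 1 ≤ M) (μ : Measure (Fin m → ℝ)) (hμ : μ ∈ SBS S c0 δ γ q Φ M) :
    IsProbabilityMeasure μ := by
  obtain ⟨J, y, _, hJ, rfl⟩ := hμ
  exact unif_prob hJ _

theorem size_box {S : Finset (Fin n)} {c0 : Fin n → ℝ} {δ : ℝ} (hδ : 0 < δ) {K : ℕ}
    {ψ : (Fin n → ℤ) → Fin m → ℕ → (Fin n → ℝ) → ℝ} (H : ChainS S c0 δ K ψ) (q : Fin m → ℕ)
    (Q : ℕ) (hq : ∀ j, q j ≤ Q) (γ κ A : ℝ)
    (hγ : 0 < γ) (hκ : 0 < κ) (hK3 : 3 ≤ K) (hKA : A + Q + 2 ≤ K) :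
    SizeB m (SBS S c0 δ γ q (fun j => ψ 0 j 0)) κ A := by
  classical
  obtain ⟨F, hFdir, ρ', hρ', M1, hM1⟩ := line_sum H κ (A + Q) hκ hK3 hKA
  set ρ : ℝ := min ρ' 1 with hρ
  have hρ0 : 0 < ρ := lt_min hρ' one_pos
  have hρ1 : ρ ≤ 1 := min_le_right _ _
  set V : ℝ := 1 + ∑ v ∈ F, ∑ i, |(v i : ℝ)| with hV
  have hV1 : 1 ≤ V := by
    have : 0 ≤ ∑ v ∈ F, ∑ i, |(v i : ℝ)| :=
      sum_nonneg fun v _ => sum_nonneg fun i _ => abs_nonneg _
    linarith
  have hVv : ∀ v ∈ F, ∑ i, |(v i : ℝ)| ≤ V := fun v hv => by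
    have := Finset.single_le_sum (f := fun v : Fin n → ℤ => ∑ i, |(v i : ℝ)|)
      (fun v _ => sum_nonneg fun i _ => abs_nonneg _) hv
    linarith
  set C : ℝ := 2 + 2 * V / γ with hC
  have hC0 : 0 < C := by positivity
  have hcast : Tendsto (fun M : ℕ => (M : ℝ)) atTop atTop := tendsto_natCast_atTop_atTop
  have hpow : ∀ a : ℝ, 0 < a → Tendsto (fun M : ℕ => (M : ℝ) ^ a) atTop atTop := fun a ha =>
    (tendsto_rpow_atTop ha).comp hcast
  have hev : ∀ᶠ M : ℕ in atTop, M1 ≤ M ∧ (1 : ℝ) ≤ M ∧ C ≤ (M : ℝ) ^ (ρ / 4) ∧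
      2 ≤ (M : ℝ) ^ (1 - ρ / 2) ∧ 2 * V / δ ≤ (M : ℝ) ^ (ρ / 2) := by
    filter_upwards [eventually_ge_atTop M1, hcast.eventually_ge_atTop 1,
      (hpow (ρ / 4) (by positivity)).eventually_ge_atTop C,
      (hpow (1 - ρ / 2) (by linarith)).eventually_ge_atTop 2,
      (hpow (ρ / 2) (by positivity)).eventually_ge_atTop (2 * V / δ)] with M a1 a2 a3 a4 a5
    exact ⟨a1, a2, a3, a4, a5⟩
  obtain ⟨M0, hM0⟩ := eventually_atTop.1 hev
  refine ⟨ρ / 4, by positivity, M0, ?_⟩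
  intro M hM μ hμ l hl1 hl2
  obtain ⟨b1, b2, b3, b4, b5⟩ := hM0 M hM
  obtain ⟨J, y, hJ, hJne, rfl⟩ := hμ
  have hMp : (0 : ℝ) < M := by linarith
  have hγM : 0 < γ * M := by positivity
  set lam : Fin m → ℝ := fun j => (l j : ℝ) * (M : ℝ) ^ q j with hlam
  obtain ⟨j0, hj0⟩ := hl1
  have hn1 : (M : ℝ) ^ κ ≤ ‖lam‖ := by
    refine hj0.trans ?_
    refine le_trans ?_ (norm_le_pi_norm lam j0)
    rw [hlam, Real.norm_eq_abs, abs_mul, abs_of_nonneg (show (0 : ℝ) ≤ (M : ℝ) ^ q j0 by positivity)]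
    have h1 : (1 : ℝ) ≤ (M : ℝ) ^ q j0 := one_le_pow₀ b2
    nlinarith [abs_nonneg (l j0 : ℝ)]
  have hn2 : ‖lam‖ ≤ (M : ℝ) ^ (A + Q) := by
    rw [pi_norm_le_iff_of_nonneg (by positivity)]
    intro j
    rw [hlam, Real.norm_eq_abs, abs_mul, abs_of_nonneg (show (0 : ℝ) ≤ (M : ℝ) ^ q j by positivity),
      Real.rpow_add hMp, Real.rpow_natCast]
    have h1 : (M : ℝ) ^ q j ≤ (M : ℝ) ^ Q := pow_le_pow_right₀ b2 (hq j)
    exact mul_le_mul (hl2 j) h1 (by positivity) (by positivity)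
  obtain ⟨v, hvF, hv⟩ := hM1 M b1 lam hn1 hn2
  have hvd : Dir S v := hFdir v hvF
  set L : ℕ := ⌊(M : ℝ) ^ (1 - ρ / 2)⌋₊ with hL
  have hL1 : (L : ℝ) ≤ (M : ℝ) ^ (1 - ρ / 2) := Nat.floor_le (by positivity)
  have hL2 : (M : ℝ) ^ (1 - ρ / 2) / 2 ≤ L := by
    have := Nat.lt_floor_add_one ((M : ℝ) ^ (1 - ρ / 2))
    rw [← hL] at this
    linarith
  have hL0 : (0 : ℝ) < L := by linarith
  have hLM : L ≤ M := by
    have h1 : (L : ℝ) ≤ M := by
      refine hL1.trans ?_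
      calc (M : ℝ) ^ (1 - ρ / 2) ≤ (M : ℝ) ^ (1 : ℝ) :=
            Real.rpow_le_rpow_of_exponent_le b2 (by linarith)
        _ = M := Real.rpow_one _
    exact_mod_cast h1
  set f : (Fin n → ℤ) → ℂ := fun a => e (∑ j, lam j * ψ 0 j 0 (pt S M y a)) with hf
  have hf1 : ∀ a, ‖f a‖ ≤ 1 := fun a => (norm_e _).le
  set P := Fintype.piFinset J with hP
  set NT : ℝ := (P.card : ℝ) with hNT
  have hNT0 : 0 < NT := by
    rw [hNT]
    exact_mod_cast hJne.card_pos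
  -- the sums along the lines
  have hline : ∀ a ∈ P, ‖∑ t ∈ range L, f (a + (t : ℤ) • v)‖ ≤ (M : ℝ) ^ (1 - ρ) := by
    intro a ha
    rw [hP, Fintype.mem_piFinset] at ha
    have h1 := hv (pt S M y a) L hLM (by
      intro t ht0 htL i
      have h2 : |pt S M y a i - c0 i| ≤ δ / 2 := by
        by_cases hi : i ∈ S
        · rw [pt_mem hi]
          exact hJ.mem i hi (a i) (ha i)
        · rw [pt_not hi]
          exact hJ.par i hi
      have h3 : |t / M * (v i : ℝ)| ≤ δ / 2 := by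
        rw [abs_mul, abs_of_nonneg (by positivity)]
        have h4 : |(v i : ℝ)| ≤ V := (Finset.single_le_sum (f := fun i => |(v i : ℝ)|)
          (fun i _ => abs_nonneg _) (mem_univ i)).trans (hVv v hvF)
        calc t / M * |(v i : ℝ)| ≤ ((M : ℝ) ^ (1 - ρ / 2)) / M * V := by
              gcongr
              exact htL.trans hL1
          _ = (M : ℝ) ^ (-(ρ / 2)) * V := by
              congr 1
              rw [sub_eq_add_neg, Real.rpow_add hMp, Real.rpow_one]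
              field_simp
          _ ≤ δ / 2 := by
              rw [Real.rpow_neg hMp.le, inv_mul_le_iff₀ (by positivity)]
              rw [div_le_iff₀ hδ] at b5
              linarith
      show |pt S M y a i + (t / M) * (v i : ℝ) - c0 i| ≤ δ
      calc |pt S M y a i + (t / M) * (v i : ℝ) - c0 i| =
            |(pt S M y a i - c0 i) + (t / M) * (v i : ℝ)| := by congr 1; ring
        _ ≤ |pt S M y a i - c0 i| + |(t / M) * (v i : ℝ)| := abs_add_le _ _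
        _ ≤ δ := by linarith)
    refine le_trans (le_of_eq ?_) (h1.trans
      (Real.rpow_le_rpow_of_exponent_le b2 (by linarith [min_le_left ρ' 1])))
    congr 1
    refine sum_congr rfl fun t _ => ?_
    rw [hf]
    simp only
    rw [pt_add hvd]
  have hshift : ∀ t ∈ range L, ‖∑ a ∈ P, f a - ∑ a ∈ P, f (a + (t : ℤ) • v)‖ ≤
      2 * (L * V) / (γ * M) * NT := by
    intro t ht
    rw [mem_range] at ht
    have hdt : Dir S ((t : ℤ) • v) := fun i hi => by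
      rw [Pi.smul_apply, hvd i hi, smul_zero]
    refine (box_shift hJ hγM f hf1 ((t : ℤ) • v) hdt).trans ?_
    have h1 : ∑ i, |((((t : ℤ) • v) i : ℤ) : ℝ)| ≤ L * V := by
      have h2 : ∀ i, |((((t : ℤ) • v) i : ℤ) : ℝ)| = t * |(v i : ℝ)| := by
        intro i
        rw [Pi.smul_apply, smul_eq_mul]
        push_cast
        rw [abs_mul, Nat.abs_cast]
      simp only [h2]
      rw [← mul_sum]
      have h3 : (t : ℝ) ≤ L := by exact_mod_cast ht.le
      exact mul_le_mul h3 (hVv v hvF) (sum_nonneg fun i _ => abs_nonneg _) hL0.le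
    gcongr
  have hsum : L * ‖∑ a ∈ P, f a‖ ≤ NT * (M : ℝ) ^ (1 - ρ) + L * (2 * (L * V) / (γ * M) * NT) := by
    have h1 : (L : ℂ) * ∑ a ∈ P, f a = ∑ a ∈ P, ∑ t ∈ range L, f (a + (t : ℤ) • v) +
        ∑ t ∈ range L, (∑ a ∈ P, f a - ∑ a ∈ P, f (a + (t : ℤ) • v)) := by
      rw [sum_sub_distrib, sum_const, card_range, nsmul_eq_mul, sum_comm]
      ring
    calc L * ‖∑ a ∈ P, f a‖ = ‖(L : ℂ) * ∑ a ∈ P, f a‖ := by
          rw [norm_mul, Complex.norm_natCast]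
      _ ≤ ‖∑ a ∈ P, ∑ t ∈ range L, f (a + (t : ℤ) • v)‖ +
          ‖∑ t ∈ range L, (∑ a ∈ P, f a - ∑ a ∈ P, f (a + (t : ℤ) • v))‖ := by
          rw [h1]
          exact norm_add_le _ _
      _ ≤ NT * (M : ℝ) ^ (1 - ρ) + L * (2 * (L * V) / (γ * M) * NT) := by
          gcongr
          · refine (norm_sum_le _ _).trans ((sum_le_sum hline).trans (le_of_eq ?_))
            rw [sum_const, nsmul_eq_mul]
          · refine (norm_sum_le _ _).trans ((sum_le_sum hshift).trans (le_of_eq ?_))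
            rw [sum_const, nsmul_eq_mul, card_range]
  have hfin : ‖∑ a ∈ P, f a‖ ≤ NT * (C * (M : ℝ) ^ (-(ρ / 2))) := by
    have h1 : ‖∑ a ∈ P, f a‖ ≤ NT * ((M : ℝ) ^ (1 - ρ) / L + 2 * (L * V) / (γ * M)) := by
      have h2 : L * ‖∑ a ∈ P, f a‖ ≤ L * (NT * ((M : ℝ) ^ (1 - ρ) / L +
          2 * (L * V) / (γ * M))) := by
        refine hsum.trans (le_of_eq ?_)
        field_simp
      exact le_of_mul_le_mul_left h2 hL0
    refine h1.trans ?_
    gcongr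
    have h3 : (M : ℝ) ^ (1 - ρ) / L ≤ 2 * (M : ℝ) ^ (-(ρ / 2)) := by
      rw [div_le_iff₀ hL0]
      calc (M : ℝ) ^ (1 - ρ) = (M : ℝ) ^ (-(ρ / 2)) * (M : ℝ) ^ (1 - ρ / 2) := by
            rw [← Real.rpow_add hMp]
            congr 1
            ring
        _ ≤ (M : ℝ) ^ (-(ρ / 2)) * (2 * L) := by
            gcongr
            linarith
        _ = _ := by ring
    have h4 : 2 * (L * V) / (γ * M) ≤ 2 * V / γ * (M : ℝ) ^ (-(ρ / 2)) := by
      calc 2 * (L * V) / (γ * M) = 2 * V / γ * (L / M) := by field_simp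
        _ ≤ 2 * V / γ * ((M : ℝ) ^ (1 - ρ / 2) / M) := by gcongr
        _ = 2 * V / γ * (M : ℝ) ^ (-(ρ / 2)) := by
            congr 1
            rw [sub_eq_add_neg, Real.rpow_add hMp, Real.rpow_one]
            field_simp
    calc (M : ℝ) ^ (1 - ρ) / L + 2 * (L * V) / (γ * M) ≤
          2 * (M : ℝ) ^ (-(ρ / 2)) + 2 * V / γ * (M : ℝ) ^ (-(ρ / 2)) := add_le_add h3 h4
      _ = _ := by rw [hC]; ring
  unfold hat
  rw [integral_unif]
  have h1 : ∀ a : Fin n → ℤ, Pool.Agent.Y933.KD.e (lin m l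
      (fun j => (M : ℝ) ^ q j * ψ 0 j 0 (pt S M y a))) = f a := by
    intro a
    rw [lin_apply, hf]
    simp only [hlam]
    have h2 : ∑ j, (l j : ℝ) * ((M : ℝ) ^ q j * ψ 0 j 0 (pt S M y a)) =
        ∑ j, (l j : ℝ) * (M : ℝ) ^ q j * ψ 0 j 0 (pt S M y a) :=
      sum_congr rfl fun j _ => by ring
    rw [h2]
    rfl
  rw [sum_congr rfl fun a _ => h1 a, norm_mul, norm_div, norm_one, Complex.norm_natCast]
  rw [← hNT]
  calc 1 / NT * ‖∑ a ∈ P, f a‖ ≤ 1 / NT * (NT * (C * (M : ℝ) ^ (-(ρ / 2)))) := by gcongr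
    _ = C * (M : ℝ) ^ (-(ρ / 2)) := by field_simp
    _ ≤ (M : ℝ) ^ (ρ / 4) * (M : ℝ) ^ (-(ρ / 2)) := by gcongr
    _ = (M : ℝ) ^ (-(ρ / 4)) := by
        rw [← Real.rpow_add hMp]
        congr 1
        ring

end Pool.Agent.H609.AV
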