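import Pool.Agent.H609.AV.Ana

/-!
# The digits of the values of analytic functions at rational points, with parameters
-/

set_option autoImplicit false

namespace Pool.Agent.H609.AV

open Finset Real Filter Topology MeasureTheory
open Pool.Agent.Y951.TU (unif)
open Pool.Agent.Q270.MB (SizeB Adm disc_rep MultIndep)
open Pool.Agent.Q270.SR (Disc)
open Pool.Agent.Q270.RT (GB Psi Disc_drop)

variable {n r k : ℕ}

/-- the integer interval -/
noncomputable def Jd (c δ : ℝ) (M : ℕ) : Finset ℤ :=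
  Finset.Ico ⌈(M : ℝ) * (c - δ)⌉ ⌊(M : ℝ) * (c + δ)⌋

lemma Jd_mem {c δ : ℝ} {M : ℕ} (hM : 0 < (M : ℝ)) {t : ℤ}
    (ht : t ∈ Jd c δ M) : |(t : ℝ) / M - c| ≤ δ := by
  unfold Jd at ht
  rw [Finset.mem_Ico] at ht
  have h1 : (M : ℝ) * (c - δ) ≤ t := (Int.le_ceil _).trans (by exact_mod_cast ht.1)
  have h2 : (t : ℝ) ≤ (M : ℝ) * (c + δ) :=
    (show (t : ℝ) ≤ (⌊(M : ℝ) * (c + δ)⌋ : ℤ) by exact_mod_cast ht.2.le).trans (Int.floor_le _)
  have h3 : (M : ℝ) * ((t : ℝ) / M) = t := by field_simp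
  rw [abs_le]
  constructor
  · by_contra hcon
    push Not at hcon
    nlinarith
  · by_contra hcon
    push Not at hcon
    nlinarith

lemma mem_Jd {c δ : ℝ} {M : ℕ} (hM : 0 < (M : ℝ)) (hδM : 4 ≤ δ * M)
    {t : ℤ} (ht : |(t : ℝ) / M - c| < δ / 2) : t ∈ Jd c δ M := by
  unfold Jd
  rw [Finset.mem_Ico]
  rw [abs_lt] at ht
  have h3 : (M : ℝ) * ((t : ℝ) / M) = t := by field_simp
  constructor
  · apply Int.ceil_le.2
    nlinarith [ht.1]
  · have h1 : (t : ℝ) + 1 < (M : ℝ) * (c + δ) := by nlinarith [ht.2]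
    have h2 : t + 1 ≤ ⌊(M : ℝ) * (c + δ)⌋ := by
      apply Int.le_floor.2
      push_cast
      exact h1.le
    omega

lemma Jd_len {c δ : ℝ} (hδ : 0 < δ) (hδ4 : δ ≤ 1 / 4) {M : ℕ} (_hM : 0 < (M : ℝ))
    (hδM : 4 ≤ δ * M) : ∃ (p : ℤ) (ℓ : ℕ), Jd c δ M = Finset.Ico p (p + ℓ) ∧ δ * M ≤ ℓ ∧
      (ℓ : ℝ) ≤ M := by
  have h1 := Int.lt_floor_add_one ((M : ℝ) * (c + δ))
  have h2 := Int.ceil_lt_add_one ((M : ℝ) * (c - δ))
  have h3 := Int.floor_le ((M : ℝ) * (c + δ))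
  have h4 := Int.le_ceil ((M : ℝ) * (c - δ))
  have h5 : δ * M ≤ ((⌊(M : ℝ) * (c + δ)⌋ - ⌈(M : ℝ) * (c - δ)⌉ : ℤ) : ℝ) := by
    push_cast
    nlinarith
  have h6 : 0 ≤ ⌊(M : ℝ) * (c + δ)⌋ - ⌈(M : ℝ) * (c - δ)⌉ := by
    have : (0 : ℝ) ≤ ((⌊(M : ℝ) * (c + δ)⌋ - ⌈(M : ℝ) * (c - δ)⌉ : ℤ) : ℝ) := by
      refine le_trans ?_ h5
      positivity
    exact_mod_cast this
  have h7 : (((⌊(M : ℝ) * (c + δ)⌋ - ⌈(M : ℝ) * (c - δ)⌉).toNat : ℕ) : ℝ) =
      ((⌊(M : ℝ) * (c + δ)⌋ - ⌈(M : ℝ) * (c - δ)⌉ : ℤ) : ℝ) := by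
    exact_mod_cast Int.toNat_of_nonneg h6
  refine ⟨⌈(M : ℝ) * (c - δ)⌉, (⌊(M : ℝ) * (c + δ)⌋ - ⌈(M : ℝ) * (c - δ)⌉).toNat, ?_, ?_, ?_⟩
  · unfold Jd
    congr 1
    omega
  · rw [h7]
    exact h5
  · rw [h7]
    push_cast
    nlinarith

/-- most of the points near a given point -/
theorem cell {S : Finset (Fin n)} (σ : Fin k → Fin r) (hk : 1 ≤ k) (B : ℕ) (A κ ε T : ℝ)
    (hκ : 0 < κ) (hε : 0 < ε) (q : Fin r → ℕ) {Φ : Fin r → (Fin n → ℝ) → ℝ}
    {c0 : Fin n → ℝ} (hΦ : ∀ j, AnalyticAt ℝ (Φ j) c0) (hnd : NonPoly S Φ c0) :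
    ∃ U ∈ 𝓝 c0, ∃ M₀ : ℕ, ∀ M : ℕ, M₀ ≤ M → ∀ (y : Fin n → ℝ) (Ts : Finset (Fin n → ℤ)),
      (∀ a ∈ Ts, (∀ i, i ∉ S → a i = 0) ∧ pt S M y a ∈ U ∧
        ¬ GB σ B A κ ε M (fun j => (M : ℝ) ^ q j * Φ j (pt S M y a))) →
      (Ts.card : ℝ) ≤ (M : ℝ) ^ S.card * (log M) ^ (-T) := by
  classical
  set Am : ℝ := (|A| + |A + 1|) * log (max B 2) with hAm
  have hAm0 : 0 ≤ Am := by
    have h1 : 0 ≤ log (max (B : ℝ) 2) :=
      Real.log_nonneg (le_trans (by norm_num) (le_max_right _ _))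
    positivity
  set Q : ℕ := univ.sup q with hQ
  have hqQ : ∀ j, q j ≤ Q := fun j => Finset.le_sup (mem_univ j)
  set K : ℕ := ⌈Am + Q + 4⌉₊ with hK
  have hQ0 : (0 : ℝ) ≤ Q := Nat.cast_nonneg _
  have hKc : (Am + 2) + Q + 2 ≤ K := by
    have := Nat.le_ceil (Am + Q + 4)
    rw [← hK] at this
    linarith
  have hK3 : 3 ≤ K := by
    have h1 : (3 : ℝ) ≤ K := by linarith
    exact_mod_cast h1
  obtain ⟨δ, hδ, hδ4, hchain⟩ := exists_chain hΦ hnd K (1 / 4) (by norm_num)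
  have hsize := size_box hδ hchain q Q hqQ (δ / 2) (κ / 2) (Am + 2) (by positivity)
    (by positivity) hK3 hKc
  obtain ⟨M1, hM1⟩ := disc_rep (ι := Fin n → ℤ) σ (SBS_prob S c0 δ (δ / 2) q _) hκ hAm0 hsize hk B
    A T ε hε le_rfl
  obtain ⟨M2, hM2⟩ := exists_nat_gt (8 / δ)
  refine ⟨Metric.ball c0 (δ / 4), Metric.ball_mem_nhds _ (by positivity), max M1 (max M2 1), ?_⟩
  intro M hM y Ts hTs
  have hMM1 : M1 ≤ M := le_of_max_le_left hM
  have hMM2 : M2 ≤ M := le_of_max_le_left (le_of_max_le_right hM)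
  have hM1' : 1 ≤ M := le_of_max_le_right (le_of_max_le_right hM)
  have hMR : (1 : ℝ) ≤ M := by exact_mod_cast hM1'
  have hMp : (0 : ℝ) < M := by linarith
  have hlog : 0 ≤ log (M : ℝ) := Real.log_nonneg hMR
  rcases Ts.eq_empty_or_nonempty with hemp | hnemp
  · rw [hemp, card_empty, Nat.cast_zero]
    have := Real.rpow_nonneg hlog (-T)
    positivity
  have hδM : 8 ≤ δ * M := by
    have h2 : (M2 : ℝ) ≤ M := by exact_mod_cast hMM2
    have h3 : 8 / δ < M := lt_of_lt_of_le hM2 h2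
    rw [div_lt_iff₀ hδ] at h3
    linarith
  set J : Fin n → Finset ℤ := fun i => if i ∈ S then Jd (c0 i) (δ / 2) M else {0} with hJ
  have hJS : ∀ i ∈ S, J i = Jd (c0 i) (δ / 2) M := fun i hi => by rw [hJ]; simp [hi]
  have hJN : ∀ i, i ∉ S → J i = {0} := fun i hi => by rw [hJ]; simp [hi]
  have hlen := fun i => Jd_len (c := c0 i) (δ := δ / 2) (by positivity) (by linarith) hMp
    (by linarith)
  have hbox : BoxS S c0 δ (δ / 2) M J y := by
    refine ⟨fun i hi t ht => ?_, fun i hi => ?_, fun i hi => ?_⟩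
    · rw [hJS i hi] at ht
      exact Jd_mem hMp ht
    · obtain ⟨p, ℓ, h1, h2, h3⟩ := hlen i
      exact ⟨p, ℓ, by rw [hJS i hi, h1], h2⟩
    · obtain ⟨a, ha⟩ := hnemp
      have h1 := (hTs a ha).2.1
      rw [Metric.mem_ball, dist_pi_lt_iff (by positivity)] at h1
      have h2 := h1 i
      rw [Real.dist_eq, pt_not hi] at h2
      linarith
  have hne : (Fintype.piFinset J).Nonempty := by
    rw [Fintype.piFinset_nonempty]
    intro i
    by_cases hi : i ∈ S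
    · obtain ⟨p, ℓ, h1, h2, h3⟩ := hlen i
      have h4 : (0 : ℝ) < ℓ := by
        have : 0 < δ / 2 * M := by positivity
        linarith
      have h5 : 0 < ℓ := by exact_mod_cast h4
      rw [hJS i hi, h1, Finset.nonempty_Ico]
      omega
    · rw [hJN i hi]
      exact Finset.singleton_nonempty _
  have key := hM1 M hMM1 (Fintype.piFinset J)
    (fun a (j : Fin r) => (M : ℝ) ^ q j * Φ j (pt S M y a)) hne
    ⟨J, y, hbox, hne, rfl⟩
  have hsub : Ts ⊆ (Fintype.piFinset J).filter (fun a =>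
      ¬ GB σ B A κ ε M (fun j => (M : ℝ) ^ q j * Φ j (pt S M y a))) := by
    intro a ha
    obtain ⟨h1, h2, h3⟩ := hTs a ha
    rw [mem_filter, Fintype.mem_piFinset]
    refine ⟨fun i => ?_, h3⟩
    by_cases hi : i ∈ S
    · rw [hJS i hi]
      apply mem_Jd hMp (by linarith)
      rw [Metric.mem_ball, dist_pi_lt_iff (by positivity)] at h2
      have h4 := h2 i
      rw [Real.dist_eq, pt_mem hi] at h4
      rw [show δ / 2 / 2 = δ / 4 by ring]
      exact h4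
    · rw [hJN i hi, h1 i hi]
      exact Finset.mem_singleton_self _
  have hcard : (((Fintype.piFinset J).card : ℕ) : ℝ) ≤ (M : ℝ) ^ S.card := by
    rw [Fintype.card_piFinset]
    push_cast
    have h2 : ∀ i, ((J i).card : ℝ) ≤ if i ∈ S then (M : ℝ) else 1 := by
      intro i
      by_cases hi : i ∈ S
      · obtain ⟨p, ℓ, h3, h4, h5⟩ := hlen i
        rw [hJS i hi, h3, Int.card_Ico, if_pos hi]
        have : (p + (ℓ : ℤ) - p).toNat = ℓ := by omega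
        rw [this]
        exact h5
      · rw [hJN i hi, if_neg hi, card_singleton, Nat.cast_one]
    calc ∏ i, ((J i).card : ℝ) ≤ ∏ i : Fin n, (if i ∈ S then (M : ℝ) else 1) :=
          Finset.prod_le_prod (fun i _ => Nat.cast_nonneg _) fun i _ => h2 i
      _ = (M : ℝ) ^ S.card := by
          rw [Finset.prod_ite_mem, univ_inter, prod_const]
  calc (Ts.card : ℝ) ≤ (((Fintype.piFinset J).filter (fun a =>
      ¬ GB σ B A κ ε M (fun j => (M : ℝ) ^ q j * Φ j (pt S M y a)))).card : ℝ) := by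
        exact_mod_cast card_le_card hsub
    _ ≤ (Fintype.piFinset J).card * (log M) ^ (-T) := by
        refine le_trans (Nat.cast_le.2 (Finset.card_le_card fun x hx => ?_)) key
        simp only [Finset.mem_filter] at hx ⊢
        exact hx
    _ ≤ (M : ℝ) ^ S.card * (log M) ^ (-T) := by
        have := Real.rpow_nonneg hlog (-T)
        gcongr

/-- compact sets -/
theorem compact_bad {S : Finset (Fin n)} (σ : Fin k → Fin r) (hk : 1 ≤ k) (B : ℕ) (A κ ε T : ℝ)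
    (hκ : 0 < κ) (hε : 0 < ε) (q : Fin r → ℕ) {Φ : Fin r → (Fin n → ℝ) → ℝ}
    {X : Set (Fin n → ℝ)} (hX : IsCompact X) (hΦ : ∀ c ∈ X, ∀ j, AnalyticAt ℝ (Φ j) c)
    (hnd : ∀ c ∈ X, NonPoly S Φ c) :
    ∃ C : ℝ, 0 ≤ C ∧ ∃ M₀ : ℕ, ∀ M : ℕ, M₀ ≤ M → ∀ (y : Fin n → ℝ) (Ts : Finset (Fin n → ℤ)),
      (∀ a ∈ Ts, (∀ i, i ∉ S → a i = 0) ∧ pt S M y a ∈ X ∧
        ¬ GB σ B A κ ε M (fun j => (M : ℝ) ^ q j * Φ j (pt S M y a))) →
      (Ts.card : ℝ) ≤ C * ((M : ℝ) ^ S.card * (log M) ^ (-T)) := by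
  classical
  refine hX.induction_on (p := fun X => ∃ C : ℝ, 0 ≤ C ∧ ∃ M₀ : ℕ, ∀ M : ℕ,
      M₀ ≤ M → ∀ (y : Fin n → ℝ) (Ts : Finset (Fin n → ℤ)),
      (∀ a ∈ Ts, (∀ i, i ∉ S → a i = 0) ∧ pt S M y a ∈ X ∧
        ¬ GB σ B A κ ε M (fun j => (M : ℝ) ^ q j * Φ j (pt S M y a))) →
      (Ts.card : ℝ) ≤ C * ((M : ℝ) ^ S.card * (log M) ^ (-T))) ?_ ?_ ?_ ?_
  · refine ⟨0, le_rfl, 0, fun M _ y Ts hTs => ?_⟩
    have : Ts = ∅ := by
      rw [Finset.eq_empty_iff_forall_notMem]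
      intro a ha
      exact (hTs a ha).2.1
    rw [this]
    simp
  · rintro s t hst ⟨C, hC, M0, h⟩
    refine ⟨C, hC, M0, fun M hM y Ts hTs => h M hM y Ts fun a ha => ?_⟩
    obtain ⟨h1, h2, h3⟩ := hTs a ha
    exact ⟨h1, hst h2, h3⟩
  · rintro s t ⟨C, hC, M0, h⟩ ⟨C', hC', M0', h'⟩
    refine ⟨C + C', by positivity, max M0 M0', fun M hM y Ts hTs => ?_⟩
    have hM0 : M0 ≤ M := le_of_max_le_left hM
    have hM0' : M0' ≤ M := le_of_max_le_right hM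
    set T1 := Ts.filter (fun a => pt S M y a ∈ s) with hT1
    set T2 := Ts.filter (fun a => pt S M y a ∈ t) with hT2
    have h1 := h M hM0 y T1 fun a ha => by
      rw [hT1, mem_filter] at ha
      obtain ⟨g1, g2, g3⟩ := hTs a ha.1
      exact ⟨g1, ha.2, g3⟩
    have h2 := h' M hM0' y T2 fun a ha => by
      rw [hT2, mem_filter] at ha
      obtain ⟨g1, g2, g3⟩ := hTs a ha.1
      exact ⟨g1, ha.2, g3⟩
    have h3 : Ts ⊆ T1 ∪ T2 := by
      intro a ha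
      obtain ⟨g1, g2, g3⟩ := hTs a ha
      rcases g2 with hx | hx
      · exact mem_union_left _ (mem_filter.2 ⟨ha, hx⟩)
      · exact mem_union_right _ (mem_filter.2 ⟨ha, hx⟩)
    calc (Ts.card : ℝ) ≤ ((T1 ∪ T2).card : ℝ) := by exact_mod_cast card_le_card h3
      _ ≤ T1.card + T2.card := by exact_mod_cast card_union_le _ _
      _ ≤ C * ((M : ℝ) ^ S.card * (log M) ^ (-T)) +
          C' * ((M : ℝ) ^ S.card * (log M) ^ (-T)) := add_le_add h1 h2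
      _ = _ := by ring
  · intro c0 hc0
    obtain ⟨U, hU, M0, h⟩ := cell σ hk B A κ ε T hκ hε q (hΦ c0 hc0) (hnd c0 hc0)
    refine ⟨U, nhdsWithin_le_nhds hU, 1, zero_le_one, M0, fun M hM y Ts hTs => ?_⟩
    rw [one_mul]
    exact h M hM y Ts hTs

/-- finite unions -/
lemma union_bound {P Y α : Type*} [Fintype P] {X : P → ℕ → Y → α → Prop} {F : ℕ → ℝ}
    (h : ∀ p, ∃ C : ℝ, 0 ≤ C ∧ ∃ M₀ : ℕ, ∀ M : ℕ, M₀ ≤ M → ∀ (y : Y) (Ts : Finset α),
      (∀ a ∈ Ts, X p M y a) → (Ts.card : ℝ) ≤ C * F M) :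
    ∃ C : ℝ, 0 ≤ C ∧ ∃ M₀ : ℕ, ∀ M : ℕ, M₀ ≤ M → ∀ (y : Y) (Ts : Finset α),
      (∀ a ∈ Ts, ∃ p, X p M y a) → (Ts.card : ℝ) ≤ C * F M := by
  classical
  choose C hC M0 hM0 using h
  refine ⟨∑ p, C p, sum_nonneg fun p _ => hC p, univ.sup M0, ?_⟩
  intro M hM y Ts hTs
  have h1 : Ts ⊆ univ.biUnion fun p => Ts.filter (fun a => X p M y a) := by
    intro a ha
    obtain ⟨p, hp⟩ := hTs a ha
    rw [mem_biUnion]
    exact ⟨p, mem_univ _, mem_filter.2 ⟨ha, hp⟩⟩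
  calc (Ts.card : ℝ) ≤ ((univ.biUnion fun p => Ts.filter (fun a => X p M y a)).card : ℝ) := by
        exact_mod_cast card_le_card h1
    _ ≤ ((∑ p, (Ts.filter (fun a => X p M y a)).card : ℕ) : ℝ) := by
        exact_mod_cast card_biUnion_le
    _ = ∑ p, ((Ts.filter (fun a => X p M y a)).card : ℝ) := by push_cast; rfl
    _ ≤ ∑ p, C p * F M := sum_le_sum fun p _ =>
        hM0 p M ((Finset.le_sup (mem_univ p)).trans hM) y _ fun a ha => (mem_filter.1 ha).2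
    _ = (∑ p, C p) * F M := by rw [sum_mul]

/-- the tuple `x` is jointly equidistributed: the discrepancy is at most `ε log M` in all windows of
places below `A log M`, and at most `(log M) ^ (1/2 + ε)` if the windows begin after the first
`κ log M` places -/
def JN (B : ℕ) (A κ ε : ℝ) (M : ℕ) (x : Fin r → ℝ) : Prop :=
  ∀ (k : ℕ) (σ : Fin k → Fin r) (b : Fin k → ℕ), 1 ≤ k → (∀ j, 2 ≤ b j ∧ b j ≤ B) →
    (∀ j j', j ≠ j' → σ j = σ j' → MultIndep (b j) (b j')) →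
    ∀ (s : Fin k → ℕ) (L : ℕ), (∀ j, (s j : ℝ) + L ≤ A * log M) →
      Disc b s L (fun j => x (σ j)) (ε * log M) ∧
      ((∀ j, (M : ℝ) ^ κ ≤ (b j : ℝ) ^ s j) →
        Disc b s L (fun j => x (σ j)) ((log M) ^ (1 / 2 + ε)))

/-- the number of the coordinates is bounded -/
lemma card_le {B : ℕ} {σ : Fin k → Fin r} {b : Fin k → ℕ} (hb : ∀ j, b j ≤ B)
    (hind : ∀ j j', j ≠ j' → σ j = σ j' → MultIndep (b j) (b j')) :
    k ≤ r * (B + 1) := by
  classical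
  have h1 : (univ : Finset (Fin k)).card ≤ ((univ : Finset (Fin r)) ×ˢ range (B + 1)).card := by
    refine Finset.card_le_card_of_injOn (fun j => (σ j, b j)) ?_ ?_
    · intro j _
      simp only [Finset.coe_product, Set.mem_prod, Finset.mem_coe, mem_range, mem_univ, true_and]
      have := hb j
      omega
    · intro j _ j' _ h
      simp only [Prod.mk.injEq] at h
      by_contra hcon
      exact (hind j j' hcon h.1) 1 1 le_rfl le_rfl (by rw [h.2])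
  rwa [card_univ, Fintype.card_fin, card_product, card_univ, Fintype.card_fin, card_range] at h1

/-- the patterns -/
abbrev Pat (k0 r : ℕ) : Type := Σ (k : Fin k0), (Fin ((k : ℕ) + 1) → Fin r)

/-- a tuple which is not jointly normal has a bad pattern -/
lemma bad_of_not {B : ℕ} {A κ κ' ε : ℝ} {M : ℕ} (hM1 : 1 ≤ M) (hκ' : κ' ≤ κ)
    (hlog : ⌈κ' * log M / log 2⌉₊ + log M ^ (1 / 2 + ε) ≤ ε * log M)
    {x : Fin r → ℝ} (h : ¬ JN B A κ ε M x) :
    ∃ p : Pat (r * (B + 1)) r, ¬ GB p.2 B A κ' ε M x := by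
  by_contra hbad
  push Not at hbad
  apply h
  intro k σ b hk hb hind s L hsL
  have hHR : (1 : ℝ) ≤ M := by exact_mod_cast hM1
  have hHp : (0 : ℝ) < M := by linarith
  have hl2 : 0 < Real.log 2 := Real.log_pos (by norm_num)
  have hk2 := card_le (fun j => (hb j).2) hind
  have hgood : ∀ (s : Fin k → ℕ) (L : ℕ), (∀ j, (s j : ℝ) + L ≤ A * log M) →
      (∀ j, (M : ℝ) ^ κ' ≤ (b j : ℝ) ^ s j) →
      Disc b s L (fun j => x (σ j)) (log M ^ (1 / 2 + ε)) := by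
    obtain ⟨k', rfl⟩ : ∃ k', k = k' + 1 := ⟨k - 1, by omega⟩
    intro s L h1 h2
    exact hbad ⟨⟨k', by omega⟩, σ⟩ b hb hind s L h2 h1
  have hb2 : ∀ j, (2 : ℝ) ≤ b j := fun j => by exact_mod_cast (hb j).1
  have hE0 : 0 ≤ log M ^ (1 / 2 + ε) := Real.rpow_nonneg (Real.log_nonneg hHR) _
  constructor
  · set i0 : ℕ := ⌈κ' * log M / log 2⌉₊ with hi0
    have hi0H : (M : ℝ) ^ κ' ≤ 2 ^ i0 := by
      calc (M : ℝ) ^ κ' = 2 ^ (κ' * log M / log 2) := by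
            rw [Real.rpow_def_of_pos hHp, Real.rpow_def_of_pos (by norm_num)]
            congr 1
            field_simp
        _ ≤ 2 ^ ((i0 : ℕ) : ℝ) :=
            Real.rpow_le_rpow_of_exponent_le (by norm_num) (Nat.le_ceil _)
        _ = 2 ^ i0 := Real.rpow_natCast _ _
    set t : ℕ := min i0 L with ht
    have htL : t ≤ L := min_le_right _ _
    have hti : (t : ℝ) ≤ i0 := by exact_mod_cast min_le_left _ _
    have key : Disc b (fun j => s j + t) (L - t) (fun j => x (σ j)) (log M ^ (1 / 2 + ε)) := by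
      rcases Nat.lt_or_ge i0 L with h1 | h1
      · have ht' : t = i0 := min_eq_left h1.le
        refine hgood _ _ (fun j => ?_) (fun j => ?_)
        · have := hsL j
          push_cast [Nat.cast_sub htL]
          linarith
        · rw [ht']
          refine hi0H.trans ?_
          calc (2 : ℝ) ^ i0 ≤ (b j : ℝ) ^ i0 := by
                gcongr
                exact hb2 j
            _ ≤ (b j : ℝ) ^ (s j + i0) :=
                pow_le_pow_right₀ (by linarith [hb2 j]) (Nat.le_add_left _ _)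
      · have ht' : t = L := min_eq_right h1
        rw [ht', Nat.sub_self]
        intro u _ _
        simp only [Finset.range_zero, Finset.filter_empty, Finset.card_empty, Nat.cast_zero,
          zero_mul, sub_zero, abs_zero]
        exact hE0
    have h2 := Disc_drop htL key
    intro u hu0 hu1
    refine (h2 u hu0 hu1).trans ?_
    linarith
  · intro hs
    exact hgood s L hsL fun j => (Real.rpow_le_rpow_of_exponent_le hHR hκ').trans (hs j)

/-- for large `M` the conditions on the logarithms are satisfied -/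
lemma ev_log {κ ε : ℝ} (hκ : 0 < κ) (hε : 0 < ε) : ∃ (κ' ε' : ℝ), 0 < κ' ∧ 0 < ε' ∧ κ' ≤ κ ∧
    ε' ≤ ε ∧ ∀ᶠ M : ℕ in atTop, 1 ≤ M ∧ 1 ≤ log (M : ℝ) ∧
      ⌈κ' * log M / log 2⌉₊ + log M ^ (1 / 2 + ε') ≤ ε' * log M := by
  set ε' : ℝ := min ε (1 / 4) with hε'
  have hε'0 : 0 < ε' := lt_min hε (by norm_num)
  have hε'ε : ε' ≤ ε := min_le_left _ _
  have hε'4 : ε' ≤ 1 / 4 := min_le_right _ _
  have hl2 : 0 < Real.log 2 := Real.log_pos (by norm_num)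
  set κ' : ℝ := min κ (ε' * Real.log 2 / 4) with hκ'
  have hκ'0 : 0 < κ' := lt_min hκ (by positivity)
  have hκ'κ : κ' ≤ κ := min_le_left _ _
  have hκ'ε : κ' ≤ ε' * Real.log 2 / 4 := min_le_right _ _
  refine ⟨κ', ε', hκ'0, hε'0, hκ'κ, hε'ε, ?_⟩
  have hlogt : Tendsto (fun H : ℕ => Real.log (H : ℝ)) atTop atTop :=
    Real.tendsto_log_atTop.comp tendsto_natCast_atTop_atTop
  have e1 : ∀ᶠ Λ : ℝ in atTop, 4 / ε' ≤ Λ ^ (1 / 4 : ℝ) :=
    (tendsto_rpow_atTop (by norm_num)).eventually_ge_atTop _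
  filter_upwards [eventually_ge_atTop 1, hlogt.eventually_ge_atTop 1,
    hlogt.eventually_ge_atTop (4 / ε'), hlogt.eventually e1] with H h1 h2 h3 h4
  refine ⟨h1, h2, ?_⟩
  have hΛ0 : 0 < Real.log (H : ℝ) := by linarith
  have g1 : (⌈κ' * Real.log H / Real.log 2⌉₊ : ℝ) < κ' * Real.log H / Real.log 2 + 1 :=
    Nat.ceil_lt_add_one (by positivity)
  have g2 : κ' * Real.log H / Real.log 2 ≤ ε' / 4 * Real.log H := by
    rw [div_le_iff₀ hl2]
    calc κ' * Real.log H ≤ (ε' * Real.log 2 / 4) * Real.log H := by gcongr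
      _ = _ := by ring
  have g3 : 1 ≤ ε' / 4 * Real.log H := by
    rw [div_le_iff₀ hε'0] at h3
    linarith
  have g4 : Real.log H ^ (1 / 2 + ε') ≤ ε' / 4 * Real.log H := by
    calc Real.log H ^ (1 / 2 + ε') ≤ Real.log H ^ (3 / 4 : ℝ) :=
          Real.rpow_le_rpow_of_exponent_le h2 (by linarith)
      _ = 1 * Real.log H ^ (3 / 4 : ℝ) := (one_mul _).symm
      _ ≤ (ε' / 4 * Real.log H ^ (1 / 4 : ℝ)) * Real.log H ^ (3 / 4 : ℝ) := by
          gcongr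
          rw [div_le_iff₀ hε'0] at h4
          linarith
      _ = ε' / 4 * Real.log H := by
          rw [mul_assoc, ← Real.rpow_add hΛ0]
          norm_num
  have g5 : 0 ≤ ε' * Real.log H := by positivity
  linarith

lemma JN_mono {B : ℕ} {A κ ε ε' : ℝ} (hε : ε' ≤ ε) {M : ℕ} (hlog : 1 ≤ log (M : ℝ))
    {x : Fin r → ℝ} (h : JN B A κ ε' M x) : JN B A κ ε M x := by
  intro k σ b hk hb hind s L hsL
  obtain ⟨j1, j2⟩ := h k σ b hk hb hind s L hsL
  refine ⟨fun t ht0 ht1 => (j1 t ht0 ht1).trans ?_, fun hs t ht0 ht1 =>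
    (j2 hs t ht0 ht1).trans ?_⟩
  · gcongr
  · exact Real.rpow_le_rpow_of_exponent_le hlog (by linarith)

/-- **Main theorem, with parameters.** -/
theorem main {S : Finset (Fin n)} (B : ℕ) (A κ ε T : ℝ)
    (hκ : 0 < κ) (hε : 0 < ε) (q : Fin r → ℕ) {Φ : Fin r → (Fin n → ℝ) → ℝ}
    {X : Set (Fin n → ℝ)} (hX : IsCompact X) (hΦ : ∀ c ∈ X, ∀ j, AnalyticAt ℝ (Φ j) c)
    (hnd : ∀ c ∈ X, NonPoly S Φ c) :
    ∃ M₀ : ℕ, ∀ M : ℕ, M₀ ≤ M → ∀ (y : Fin n → ℝ) (Ts : Finset (Fin n → ℤ)),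
      (∀ a ∈ Ts, (∀ i, i ∉ S → a i = 0) ∧ pt S M y a ∈ X ∧
        ¬ JN B A κ ε M (fun j => (M : ℝ) ^ q j * Φ j (pt S M y a))) →
      (Ts.card : ℝ) ≤ (M : ℝ) ^ S.card * (log M) ^ (-T) := by
  classical
  obtain ⟨κ', ε', hκ'0, hε'0, hκ'κ, hε'ε, hev⟩ := ev_log hκ hε
  obtain ⟨C, hC, M1, h⟩ := union_bound (P := Pat (r * (B + 1)) r) (Y := Fin n → ℝ)
    (α := Fin n → ℤ)
    (X := fun p M y a => (∀ i, i ∉ S → a i = 0) ∧ pt S M y a ∈ X ∧
        ¬ GB p.2 B A κ' ε' M (fun j => (M : ℝ) ^ q j * Φ j (pt S M y a)))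
    (F := fun M => (M : ℝ) ^ S.card * (log M) ^ (-(T + 1)))
    (fun p => compact_bad p.2 (by omega) B A κ' ε' (T + 1) hκ'0 hε'0 q hX hΦ hnd)
  have hlogt : Tendsto (fun M : ℕ => log (M : ℝ)) atTop atTop :=
    Real.tendsto_log_atTop.comp tendsto_natCast_atTop_atTop
  obtain ⟨M₂, hM₂⟩ := eventually_atTop.1 (hev.and ((hlogt.eventually_ge_atTop C).and
    (hlogt.eventually_gt_atTop 0)))
  refine ⟨max M1 M₂, fun M hM y Ts hTs => ?_⟩
  obtain ⟨⟨g1, g2, g3⟩, g4, g5⟩ := hM₂ M (le_of_max_le_right hM)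
  refine (h M (le_of_max_le_left hM) y Ts fun a ha => ?_).trans ?_
  · obtain ⟨h1, h2, h3⟩ := hTs a ha
    obtain ⟨p, hp⟩ := bad_of_not (κ := κ) g1 hκ'κ g3 (fun hj => h3 (JN_mono hε'ε g2 hj))
    exact ⟨p, h1, h2, hp⟩
  · have hMp : (0 : ℝ) < M := by exact_mod_cast g1
    have h1 : (log (M : ℝ)) ^ (-T) = log M * (log M) ^ (-(T + 1)) := by
      nth_rewrite 2 [← Real.rpow_one (log (M : ℝ))]
      rw [← Real.rpow_add g5]
      congr 1
      ring
    rw [h1]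
    calc C * ((M : ℝ) ^ S.card * (log M) ^ (-(T + 1))) ≤
          log M * ((M : ℝ) ^ S.card * (log M) ^ (-(T + 1))) := by gcongr
      _ = _ := by ring

end Pool.Agent.H609.AV
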