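import Pool.Agent.H609.AV.Main

/-!
# The digits of locally analytic functions

The values are functions of a point `z` of a space `Z` (for instance a root of a polynomial), which is
locally an analytic function of the variables and the parameters.
-/

set_option autoImplicit false

namespace Pool.Agent.H609.AV

open Finset Real Filter Topology MeasureTheory
open Pool.Agent.Q270.RT (GB)

variable {n r k : ℕ} {Z : Type} [TopologicalSpace Z]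

/-- the condition of local analyticity -/
def LocAna (S : Finset (Fin n)) (val : Z → Fin r → ℝ) (X : Set ((Fin n → ℝ) × Z)) : Prop :=
  ∀ p ∈ X, ∃ Φ : Fin r → (Fin n → ℝ) → ℝ, (∀ j, AnalyticAt ℝ (Φ j) p.1) ∧ NonPoly S Φ p.1 ∧
    ∀ᶠ p' in 𝓝 p, p' ∈ X → ∀ j, val p'.2 j = Φ j p'.1

/-- compact sets, one pattern -/
theorem compact_pairs {S : Finset (Fin n)} (σ : Fin k → Fin r) (hk : 1 ≤ k) (B : ℕ) (A κ ε T : ℝ)
    (hκ : 0 < κ) (hε : 0 < ε) (q : Fin r → ℕ) {val : Z → Fin r → ℝ}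
    {X : Set ((Fin n → ℝ) × Z)} (hX : IsCompact X) (hloc : LocAna S val X) :
    ∃ C : ℝ, 0 ≤ C ∧ ∃ M₀ : ℕ, ∀ M : ℕ, M₀ ≤ M → ∀ (y : Fin n → ℝ) (Ts : Finset (Fin n → ℤ)),
      (∀ a ∈ Ts, (∀ i, i ∉ S → a i = 0) ∧ ∃ z : Z, (pt S M y a, z) ∈ X ∧
        ¬ GB σ B A κ ε M (fun j => (M : ℝ) ^ q j * val z j)) →
      (Ts.card : ℝ) ≤ C * ((M : ℝ) ^ S.card * (log M) ^ (-T)) := by
  classical
  have key : ∃ C : ℝ, 0 ≤ C ∧ ∃ M₀ : ℕ, ∀ M : ℕ,
      M₀ ≤ M → ∀ (y : Fin n → ℝ) (Ts : Finset (Fin n → ℤ)),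
      (∀ a ∈ Ts, (∀ i, i ∉ S → a i = 0) ∧ ∃ z : Z, (pt S M y a, z) ∈ X ∧ (pt S M y a, z) ∈ X ∧
        ¬ GB σ B A κ ε M (fun j => (M : ℝ) ^ q j * val z j)) →
      (Ts.card : ℝ) ≤ C * ((M : ℝ) ^ S.card * (log M) ^ (-T)) := by
    refine hX.induction_on (p := fun X' => ∃ C : ℝ, 0 ≤ C ∧ ∃ M₀ : ℕ, ∀ M : ℕ,
      M₀ ≤ M → ∀ (y : Fin n → ℝ) (Ts : Finset (Fin n → ℤ)),
      (∀ a ∈ Ts, (∀ i, i ∉ S → a i = 0) ∧ ∃ z : Z, (pt S M y a, z) ∈ X' ∧ (pt S M y a, z) ∈ X ∧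
        ¬ GB σ B A κ ε M (fun j => (M : ℝ) ^ q j * val z j)) →
      (Ts.card : ℝ) ≤ C * ((M : ℝ) ^ S.card * (log M) ^ (-T))) ?_ ?_ ?_ ?_
    · refine ⟨0, le_rfl, 0, fun M _ y Ts hTs => ?_⟩
      have : Ts = ∅ := by
        rw [Finset.eq_empty_iff_forall_notMem]
        intro a ha
        obtain ⟨-, z, h, -⟩ := hTs a ha
        exact h
      rw [this]
      simp
    · rintro s t hst ⟨C, hC, M0, h⟩
      refine ⟨C, hC, M0, fun M hM y Ts hTs => h M hM y Ts fun a ha => ?_⟩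
      obtain ⟨h1, z, h2, h3⟩ := hTs a ha
      exact ⟨h1, z, hst h2, h3⟩
    · rintro s t ⟨C, hC, M0, h⟩ ⟨C', hC', M0', h'⟩
      refine ⟨C + C', by positivity, max M0 M0', fun M hM y Ts hTs => ?_⟩
      have hM0 : M0 ≤ M := le_of_max_le_left hM
      have hM0' : M0' ≤ M := le_of_max_le_right hM
      set T1 := Ts.filter (fun a => (∀ i, i ∉ S → a i = 0) ∧ ∃ z : Z, (pt S M y a, z) ∈ s ∧
        (pt S M y a, z) ∈ X ∧ ¬ GB σ B A κ ε M (fun j => (M : ℝ) ^ q j * val z j)) with hT1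
      set T2 := Ts.filter (fun a => (∀ i, i ∉ S → a i = 0) ∧ ∃ z : Z, (pt S M y a, z) ∈ t ∧
        (pt S M y a, z) ∈ X ∧ ¬ GB σ B A κ ε M (fun j => (M : ℝ) ^ q j * val z j)) with hT2
      have h1 := h M hM0 y T1 fun a ha => (mem_filter.1 ha).2
      have h2 := h' M hM0' y T2 fun a ha => (mem_filter.1 ha).2
      have h3 : Ts ⊆ T1 ∪ T2 := by
        intro a ha
        obtain ⟨g1, z, g2, g3, g4⟩ := hTs a ha
        rcases g2 with hx | hx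
        · exact mem_union_left _ (mem_filter.2 ⟨ha, g1, z, hx, g3, g4⟩)
        · exact mem_union_right _ (mem_filter.2 ⟨ha, g1, z, hx, g3, g4⟩)
      calc (Ts.card : ℝ) ≤ ((T1 ∪ T2).card : ℝ) := by exact_mod_cast card_le_card h3
        _ ≤ T1.card + T2.card := by exact_mod_cast card_union_le _ _
        _ ≤ C * ((M : ℝ) ^ S.card * (log M) ^ (-T)) +
            C' * ((M : ℝ) ^ S.card * (log M) ^ (-T)) := add_le_add h1 h2
        _ = _ := by ring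
    · rintro ⟨c0, z0⟩ hc0
      obtain ⟨Φ, hΦ, hnd, hev⟩ := hloc _ hc0
      obtain ⟨U, hU, M0, h⟩ := cell σ hk B A κ ε T hκ hε q hΦ hnd
      refine ⟨{p' | p'.1 ∈ U ∧ (p' ∈ X → ∀ j, val p'.2 j = Φ j p'.1)}, nhdsWithin_le_nhds ?_,
        1, zero_le_one, M0, fun M hM y Ts hTs => ?_⟩
      · have h1 : ∀ᶠ p' : (Fin n → ℝ) × Z in 𝓝 (c0, z0), p'.1 ∈ U :=
          continuous_fst.continuousAt.eventually hU
        exact h1.and hev
      · rw [one_mul]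
        refine h M hM y Ts fun a ha => ?_
        obtain ⟨g1, z, ⟨g2, g3⟩, g4, g5⟩ := hTs a ha
        refine ⟨g1, g2, ?_⟩
        have g6 : (fun j => (M : ℝ) ^ q j * Φ j (pt S M y a)) =
            fun j => (M : ℝ) ^ q j * val z j := by
          funext j
          rw [g3 g4 j]
        rw [g6]
        exact g5
  obtain ⟨C, hC, M0, h⟩ := key
  refine ⟨C, hC, M0, fun M hM y Ts hTs => h M hM y Ts fun a ha => ?_⟩
  obtain ⟨h1, z, h2, h3⟩ := hTs a ha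
  exact ⟨h1, z, h2, h2, h3⟩

/-- **Main theorem for locally analytic functions.** -/
theorem main_pairs {S : Finset (Fin n)} (B : ℕ) (A κ ε T : ℝ)
    (hκ : 0 < κ) (hε : 0 < ε) (q : Fin r → ℕ) {val : Z → Fin r → ℝ}
    {X : Set ((Fin n → ℝ) × Z)} (hX : IsCompact X) (hloc : LocAna S val X) :
    ∃ M₀ : ℕ, ∀ M : ℕ, M₀ ≤ M → ∀ (y : Fin n → ℝ) (Ts : Finset (Fin n → ℤ)),
      (∀ a ∈ Ts, (∀ i, i ∉ S → a i = 0) ∧ ∃ z : Z, (pt S M y a, z) ∈ X ∧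
        ¬ JN B A κ ε M (fun j => (M : ℝ) ^ q j * val z j)) →
      (Ts.card : ℝ) ≤ (M : ℝ) ^ S.card * (log M) ^ (-T) := by
  classical
  obtain ⟨κ', ε', hκ'0, hε'0, hκ'κ, hε'ε, hev⟩ := ev_log hκ hε
  obtain ⟨C, hC, M1, h⟩ := union_bound (P := Pat (r * (B + 1)) r) (Y := Fin n → ℝ)
    (α := Fin n → ℤ)
    (X := fun p M y a => (∀ i, i ∉ S → a i = 0) ∧ ∃ z : Z, (pt S M y a, z) ∈ X ∧
        ¬ GB p.2 B A κ' ε' M (fun j => (M : ℝ) ^ q j * val z j))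
    (F := fun M => (M : ℝ) ^ S.card * (log M) ^ (-(T + 1)))
    (fun p => compact_pairs p.2 (by omega) B A κ' ε' (T + 1) hκ'0 hε'0 q hX hloc)
  have hlogt : Tendsto (fun M : ℕ => log (M : ℝ)) atTop atTop :=
    Real.tendsto_log_atTop.comp tendsto_natCast_atTop_atTop
  obtain ⟨M₂, hM₂⟩ := eventually_atTop.1 (hev.and ((hlogt.eventually_ge_atTop C).and
    (hlogt.eventually_gt_atTop 0)))
  refine ⟨max M1 M₂, fun M hM y Ts hTs => ?_⟩
  obtain ⟨⟨g1, g2, g3⟩, g4, g5⟩ := hM₂ M (le_of_max_le_right hM)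
  refine (h M (le_of_max_le_left hM) y Ts fun a ha => ?_).trans ?_
  · obtain ⟨h1, z, h2, h3⟩ := hTs a ha
    obtain ⟨p, hp⟩ := bad_of_not (κ := κ) g1 hκ'κ g3 (fun hj => h3 (JN_mono hε'ε g2 hj))
    exact ⟨p, h1, z, h2, hp⟩
  · have hMp : (0 : ℝ) < M := by exact_mod_cast g1
    have h1 : (log (M : ℝ)) ^ (-T) = log M * (log M) ^ (-(T + 1)) := by
      nth_rewrite 2 [← Real.rpow_one (log (M : ℝ))]
      rw [← Real.rpow_add g5]
      congr 1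
      ring
    rw [h1]
    calc C * ((M : ℝ) ^ S.card * (log M) ^ (-(T + 1))) ≤
          log M * ((M : ℝ) ^ S.card * (log M) ^ (-(T + 1))) := by gcongr
      _ = _ := by ring

end Pool.Agent.H609.AV
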