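import Pool.Agent.H609.AV.Pairs
import Pool.Graph.R_pool_sql_team_seeded_3997aac3.Q270.AA.Local

/-!
# The powers of a root, as functions of at least two coefficients, are not polynomials

If `P(c)` is a polynomial in the coefficients which is near a point equal to `g(x)`, `x` the root, then
`P` is equal to `g(x)` on the line of all `(c_e, c_f)` for which `x` is a root (the other coefficients
are fixed). Any two of these lines meet, so `g` is constant.
-/

set_option autoImplicit false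

namespace Pool.Agent.H609.AV

open Finset Real Filter Topology
open Pool.Agent.Q270.AA (pv pd pv_deriv local_root)

variable {D m : ℕ}

/-- the combination of the powers -/
noncomputable def gp (u : Fin m → ℝ) : Polynomial ℝ :=
  ∑ j : Fin m, Polynomial.C (u j) * Polynomial.X ^ ((j : ℕ) + 1)

lemma gp_eval (u : Fin m → ℝ) (x : ℝ) : (gp u).eval x = ∑ j : Fin m, u j * x ^ ((j : ℕ) + 1) := by
  unfold gp
  rw [Polynomial.eval_finsetSum]
  simp

lemma gp_const {u : Fin m → ℝ} {c : ℝ} {s : Set ℝ} (hs : s.Infinite)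
    (h : ∀ x ∈ s, (gp u).eval x = c) : u = 0 := by
  have h1 : gp u - Polynomial.C c = 0 := by
    apply Polynomial.eq_zero_of_infinite_isRoot
    refine hs.mono fun x hx => ?_
    show Polynomial.IsRoot _ _
    rw [Polynomial.IsRoot, Polynomial.eval_sub, Polynomial.eval_C, h x hx, sub_self]
  funext j
  have h2 := congrArg (fun p : Polynomial ℝ => p.coeff ((j : ℕ) + 1)) h1
  simp only [Polynomial.coeff_sub, Polynomial.coeff_C_succ, sub_zero, Polynomial.coeff_zero] at h2
  unfold gp at h2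
  rw [Polynomial.finsetSum_coeff] at h2
  simp only [Polynomial.coeff_C_mul, Polynomial.coeff_X_pow] at h2
  rw [Finset.sum_eq_single_of_mem j (mem_univ j)] at h2
  · simpa using h2
  · intro i _ hi
    rw [if_neg, mul_zero]
    intro h3
    apply hi
    apply Fin.ext
    omega

/-- a polynomial restricted to a line -/
lemma line_poly {n : ℕ} (P : MvPolynomial (Fin n) ℝ) (a b : Fin n → ℝ) :
    ∃ p : Polynomial ℝ, ∀ s : ℝ, p.eval s = MvPolynomial.eval (fun i => a i + s * b i) P := by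
  refine ⟨MvPolynomial.aeval (fun i => Polynomial.C (a i) + Polynomial.X * Polynomial.C (b i)) P,
    fun t => ?_⟩
  set p := MvPolynomial.aeval (fun i => Polynomial.C (a i) + Polynomial.X * Polynomial.C (b i)) P
    with hp
  have h1 : p.eval t = (Polynomial.aeval t) p := by
    rw [Polynomial.aeval_def, Polynomial.eval₂_eq_eval_map]
    simp
  rw [h1, hp, ← AlgHom.comp_apply, MvPolynomial.comp_aeval]
  have h2 : MvPolynomial.eval (fun i => a i + t * b i) P =
      MvPolynomial.aeval (fun i => a i + t * b i) P := by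
    rw [MvPolynomial.aeval_def, MvPolynomial.eval₂_eq_eval_map]
    simp
  rw [h2]
  congr 2
  funext i
  rw [map_add, map_mul, Polynomial.aeval_C, Polynomial.aeval_C, Polynomial.aeval_X]
  rfl

lemma pow_inj_near {x x' x0 : ℝ} (h : 0 < x * x0) (h' : 0 < x' * x0) {k : ℕ} (hk : k ≠ 0)
    (hp : x ^ k = x' ^ k) : x = x' := by
  have hx : x ≠ 0 := by
    rintro rfl
    simp at h
  have h0 : 0 < x' / x := by
    have h1 : 0 < (x * x0) * (x' * x0) := mul_pos h h'
    have h2 : (x * x0) * (x' * x0) = (x' / x) * (x * x0) ^ 2 := by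
      field_simp
    rw [h2] at h1
    exact pos_of_mul_pos_left h1 (sq_nonneg _)
  have h1 : (x' / x) ^ k = 1 := by
    rw [div_pow, hp, div_self]
    rw [← hp]
    exact pow_ne_zero _ hx
  have h2 := (pow_eq_one_iff_of_nonneg h0.le hk).1 h1
  rw [div_eq_one_iff_eq hx] at h2
  exact h2.symm

/-- the powers of the root -/
theorem root_nonpoly {E : Finset (Fin (D + 1))} {e f : Fin (D + 1)} (he : e ∈ E) (hf : f ∈ E)
    (hfe : (f : ℕ) < e) {c0 : Fin (D + 1) → ℝ} {x0 : ℝ} (h0 : pv c0 x0 = 0) (hx0 : x0 ≠ 0)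
    {Φ : (Fin (D + 1) → ℝ) → ℝ}
    (hu : ∀ᶠ v in 𝓝 (c0, x0), pv v.1 v.2 = 0 → v.2 = Φ v.1) :
    NonPoly E (fun (j : Fin m) c => Φ c ^ ((j : ℕ) + 1)) c0 := by
  classical
  intro u hu0
  rintro ⟨P, hP⟩
  have hef : e ≠ f := by
    rintro rfl
    exact lt_irrefl _ hfe
  set a : ℝ → Fin (D + 1) → ℝ := fun x => c0 + Pi.single f (-(pv c0 x) / x ^ (f : ℕ)) with ha
  set b : ℝ → Fin (D + 1) → ℝ := fun x => Pi.single e 1 +
    Pi.single f (-(x ^ (e : ℕ) / x ^ (f : ℕ))) with hb
  have hline : ∀ s x : ℝ, x ≠ 0 → pv (fun i => a x i + s * b x i) x = 0 := by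
    intro s x hx
    have hxf : x ^ (f : ℕ) ≠ 0 := pow_ne_zero _ hx
    have h1 : pv (fun i => a x i + s * b x i) x = pv c0 x +
        (-(pv c0 x) / x ^ (f : ℕ)) * x ^ (f : ℕ) + s * (x ^ (e : ℕ) +
        (-(x ^ (e : ℕ) / x ^ (f : ℕ))) * x ^ (f : ℕ)) := by
      have g1 : ∀ (i0 : Fin (D + 1)) (v : ℝ), ∑ i, (Pi.single i0 v : Fin (D + 1) → ℝ) i *
          x ^ (i : ℕ) = v * x ^ (i0 : ℕ) := by
        intro i0 v
        rw [Finset.sum_eq_single_of_mem i0 (mem_univ _)]
        · rw [Pi.single_eq_same]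
        · intro i _ hi
          rw [Pi.single_eq_of_ne hi, zero_mul]
      have g2 : pv (fun i => a x i + s * b x i) x = pv c0 x +
          ∑ i, (Pi.single f (-(pv c0 x) / x ^ (f : ℕ)) : Fin (D + 1) → ℝ) i * x ^ (i : ℕ) +
          s * (∑ i, (Pi.single e 1 : Fin (D + 1) → ℝ) i * x ^ (i : ℕ) +
            ∑ i, (Pi.single f (-(x ^ (e : ℕ) / x ^ (f : ℕ))) : Fin (D + 1) → ℝ) i *
              x ^ (i : ℕ)) := by
        have g3 : pv c0 x = ∑ i, c0 i * x ^ (i : ℕ) := rfl
        set w : ℝ := -(pv c0 x) / x ^ (f : ℕ) with hw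
        rw [g3, ← sum_add_distrib, ← sum_add_distrib, mul_sum, ← sum_add_distrib]
        unfold pv
        refine sum_congr rfl fun i _ => ?_
        rw [ha, hb]
        simp only [Pi.add_apply]
        rw [← hw]
        ring
      rw [g2, g1, g1, g1, one_mul]
    rw [h1]
    field_simp
    ring
  -- continuity
  have hcont : ContinuousAt (fun p : ℝ × ℝ => ((fun i => a p.2 i + p.1 * b p.2 i), p.2))
      ((0 : ℝ), x0) := by
    have hpv : Continuous fun x : ℝ => pv c0 x := by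
      unfold pv
      fun_prop
    refine ContinuousAt.prodMk ?_ continuousAt_snd
    rw [continuousAt_pi]
    intro i
    have hxf : ((0 : ℝ), x0).2 ^ (f : ℕ) ≠ 0 := pow_ne_zero _ hx0
    have hpv2 : ContinuousAt (fun p : ℝ × ℝ => pv c0 p.2) ((0 : ℝ), x0) :=
      (hpv.comp continuous_snd).continuousAt
    have hp2 : ∀ k : ℕ, ContinuousAt (fun p : ℝ × ℝ => p.2 ^ k) ((0 : ℝ), x0) := fun k =>
      (continuous_snd.pow k).continuousAt
    have hsf : ∀ (w : ℝ × ℝ → ℝ), ContinuousAt w ((0 : ℝ), x0) → ∀ i0 i : Fin (D + 1),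
        ContinuousAt (fun p : ℝ × ℝ => (Pi.single i0 (w p) : Fin (D + 1) → ℝ) i)
          ((0 : ℝ), x0) := by
      intro w hw i0 i
      by_cases hi : i = i0
      · subst hi
        simpa using hw
      · simp only [Pi.single_eq_of_ne hi]
        exact continuousAt_const
    have e1 := hsf (fun p => -(pv c0 p.2) / p.2 ^ (f : ℕ)) (hpv2.neg.div (hp2 _) hxf) f i
    have e2 := hsf (fun p => -(p.2 ^ (e : ℕ) / p.2 ^ (f : ℕ))) (((hp2 _).div (hp2 _) hxf).neg) f i
    have e3 : ContinuousAt (fun p : ℝ × ℝ => (c0 i + (Pi.single f (-(pv c0 p.2) / p.2 ^ (f : ℕ)) :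
        Fin (D + 1) → ℝ) i) + p.1 * ((Pi.single e 1 : Fin (D + 1) → ℝ) i +
        (Pi.single f (-(p.2 ^ (e : ℕ) / p.2 ^ (f : ℕ))) : Fin (D + 1) → ℝ) i)) ((0 : ℝ), x0) :=
      (continuousAt_const.add e1).add (continuousAt_fst.mul (continuousAt_const.add e2))
    exact e3
  have hval : ((fun i => a ((0 : ℝ), x0).2 i + ((0 : ℝ), x0).1 * b ((0 : ℝ), x0).2 i),
      ((0 : ℝ), x0).2) = (c0, x0) := by
    refine Prod.ext ?_ rfl
    funext i
    simp [ha, h0]
  have hP2 : ∀ᶠ v : (Fin (D + 1) → ℝ) × ℝ in 𝓝 (c0, x0), (∀ i, i ∉ E → v.1 i = c0 i) →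
      ∑ j : Fin m, u j * Φ v.1 ^ ((j : ℕ) + 1) = MvPolynomial.eval v.1 P := by
    have h1 : Tendsto (fun v : (Fin (D + 1) → ℝ) × ℝ => v.1) (𝓝 (c0, x0)) (𝓝 c0) :=
      continuous_fst.continuousAt
    exact h1.eventually hP
  have hall := hcont.tendsto
  rw [hval] at hall
  have hev := hall.eventually (hu.and hP2)
  have hsign : ∀ᶠ p : ℝ × ℝ in 𝓝 ((0 : ℝ), x0), 0 < p.2 * x0 := by
    have h1 : ContinuousAt (fun p : ℝ × ℝ => p.2 * x0) ((0 : ℝ), x0) := by fun_prop
    have h2 : (0 : ℝ) < ((0 : ℝ), x0).2 * x0 := by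
      exact mul_self_pos.2 hx0
    exact h1.eventually (lt_mem_nhds h2)
  obtain ⟨δ, hδ, hball⟩ := Metric.eventually_nhds_iff_ball.1 (hev.and hsign)
  -- on the lines
  have honline : ∀ x : ℝ, |x - x0| < δ → 0 < x * x0 ∧
      ∀ s : ℝ, MvPolynomial.eval (fun i => a x i + s * b x i) P = (gp u).eval x := by
    intro x hx
    have hmem : ∀ s : ℝ, |s| < δ → (s, x) ∈ Metric.ball ((0 : ℝ), x0) δ := by
      intro s hs
      rw [Metric.mem_ball, Prod.dist_eq, max_lt_iff]
      constructor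
      · rw [Real.dist_eq, sub_zero]
        exact hs
      · rw [Real.dist_eq]
        exact hx
    have hpos : 0 < x * x0 := (hball _ (hmem 0 (by rwa [abs_zero]))).2
    have hxn : x ≠ 0 := by
      rintro rfl
      simp at hpos
    refine ⟨hpos, ?_⟩
    obtain ⟨p, hp⟩ := line_poly P (a x) (b x)
    have hroots : ∀ s : ℝ, |s| < δ → p.eval s = (gp u).eval x := by
      intro s hs
      obtain ⟨⟨g1, g2⟩, -⟩ := hball _ (hmem s hs)
      simp only at g1 g2
      have g3 := g1 (hline s x hxn)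
      rw [hp, gp_eval, ← g2 ?_, ← g3]
      intro i hi
      have hie : i ≠ e := fun h => hi (h ▸ he)
      have hif : i ≠ f := fun h => hi (h ▸ hf)
      simp [ha, hb, Pi.single_eq_of_ne hie, Pi.single_eq_of_ne hif]
    have hp0 : p - Polynomial.C ((gp u).eval x) = 0 := by
      apply Polynomial.eq_zero_of_infinite_isRoot
      refine (Set.Ioo_infinite (show -δ < δ by linarith)).mono fun s hs => ?_
      show Polynomial.IsRoot _ _
      rw [Polynomial.IsRoot, Polynomial.eval_sub, Polynomial.eval_C,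
        hroots s (abs_lt.2 ⟨hs.1, hs.2⟩), sub_self]
    intro s
    rw [← hp, sub_eq_zero.1 hp0, Polynomial.eval_C]
  apply hu0
  refine gp_const (c := (gp u).eval x0) (s := Set.Ioo (x0 - δ) (x0 + δ))
    (Set.Ioo_infinite (by linarith)) fun x hx => ?_
  have hx1 : |x - x0| < δ := by
    rw [abs_lt]
    constructor <;> linarith [hx.1, hx.2]
  by_cases hxx : x = x0
  · rw [hxx]
  obtain ⟨k1, k2⟩ := honline x hx1
  obtain ⟨k3, k4⟩ := honline x0 (by rwa [sub_self, abs_zero])
  have hxn : x ≠ 0 := by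
    rintro rfl
    simp at k1
  -- the intersection of the lines
  set k : ℕ := (e : ℕ) - f with hk
  have hk0 : k ≠ 0 := by omega
  have hpk : x0 ^ k - x ^ k ≠ 0 := by
    intro h
    exact hxx (pow_inj_near k1 k3 hk0 (by linarith))
  have hquot : ∀ z : ℝ, z ≠ 0 → z ^ (e : ℕ) / z ^ (f : ℕ) = z ^ k := by
    intro z hz
    rw [div_eq_iff (pow_ne_zero _ hz), ← pow_add]
    congr 1
    omega
  set s : ℝ := (-(pv c0 x) / x ^ (f : ℕ)) / (x ^ k - x0 ^ k) with hs
  have hpk' : x ^ k - x0 ^ k ≠ 0 := by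
    intro h
    apply hpk
    linarith
  have hinter : (fun i => a x i + s * b x i) = fun i => a x0 i + s * b x0 i := by
    funext i
    by_cases hif : i = f
    · subst hif
      have g1 : s * (x ^ k - x0 ^ k) = -(pv c0 x) / x ^ (i : ℕ) := by
        rw [hs]
        field_simp
      simp only [ha, hb, Pi.add_apply, Pi.single_eq_same, hquot x hxn, hquot x0 hx0, h0, neg_zero,
        zero_div, Pi.single_eq_of_ne (Ne.symm hef)]
      linarith
    · simp only [ha, hb, Pi.add_apply, Pi.single_eq_of_ne hif]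
  rw [← k2 s, hinter, k4 s]

/-- local analyticity -/
theorem root_locAna {E : Finset (Fin (D + 1))} {e f : Fin (D + 1)} (he : e ∈ E) (hf : f ∈ E)
    (hfe : (f : ℕ) < e) {X : Set ((Fin (D + 1) → ℝ) × ℝ)}
    (hX : ∀ p ∈ X, pv p.1 p.2 = 0 ∧ pd p.1 p.2 ≠ 0 ∧ p.2 ≠ 0) :
    LocAna E (fun (x : ℝ) (j : Fin m) => x ^ ((j : ℕ) + 1)) X := by
  rintro ⟨c0, x0⟩ hp
  obtain ⟨h1, h2, h3⟩ := hX _ hp
  simp only at h1 h2 h3
  obtain ⟨Φ, hΦa, hΦ0, hΦr, hΦu⟩ := local_root h1 h2
  refine ⟨fun j c => Φ c ^ ((j : ℕ) + 1), fun j => hΦa.pow _,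
    root_nonpoly he hf hfe h1 h3 hΦu, ?_⟩
  filter_upwards [hΦu] with p' hp' hp'X j
  rw [hp' (hX _ hp'X).1]

end Pool.Agent.H609.AV
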