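import Pool.Agent.H609.AV.Main

/-!
# No trigonometric polynomial is a polynomial, and a lower bound for the totient function
-/

set_option autoImplicit false

namespace Pool.Agent.H609.AV

open Finset Real Filter Topology

/-- there are infinitely many points on the unit circle -/
lemma circle_infinite : {z : ℂ | ‖z‖ = 1}.Infinite := by
  apply Set.infinite_of_injective_forall_mem
    (f := fun n : ℕ => (⟨1 / ((n : ℝ) + 1), √(1 - (1 / ((n : ℝ) + 1)) ^ 2)⟩ : ℂ))
  · intro a b hab
    have h1 := congrArg Complex.re hab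
    simp only at h1
    have ha : (0 : ℝ) < (a : ℝ) + 1 := by positivity
    have hb : (0 : ℝ) < (b : ℝ) + 1 := by positivity
    rw [div_eq_div_iff ha.ne' hb.ne'] at h1
    have : (a : ℝ) = b := by linarith
    exact_mod_cast this
  · intro n
    have h0 : (0 : ℝ) < (n : ℝ) + 1 := by positivity
    have h1 : 1 / ((n : ℝ) + 1) ≤ 1 := by
      rw [div_le_one h0]
      have : (0 : ℝ) ≤ n := Nat.cast_nonneg _
      linarith
    have h2 : 0 ≤ 1 / ((n : ℝ) + 1) := by positivity
    have h3 : 0 ≤ 1 - (1 / ((n : ℝ) + 1)) ^ 2 := by nlinarith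
    show ‖(⟨1 / ((n : ℝ) + 1), √(1 - (1 / ((n : ℝ) + 1)) ^ 2)⟩ : ℂ)‖ = 1
    rw [Complex.norm_def, Complex.normSq_mk, Real.mul_self_sqrt h3]
    rw [show 1 / ((n : ℝ) + 1) * (1 / ((n : ℝ) + 1)) + (1 - (1 / ((n : ℝ) + 1)) ^ 2) = 1 by ring]
    exact Real.sqrt_one

/-- the trigonometric polynomial -/
noncomputable def tp {m : ℕ} (u : Fin m × Bool → ℝ) (s : ℝ) : ℝ :=
  ∑ j : Fin m, (u (j, false) * cos (2 * π * ((j : ℕ) + 1) * s) +
    u (j, true) * sin (2 * π * ((j : ℕ) + 1) * s))

lemma tp_const {m : ℕ} {u : Fin m × Bool → ℝ} {c : ℝ} (h : ∀ s, tp u s = c) : u = 0 := by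
  classical
  set a : Fin m → ℂ := fun j => (u (j, false) : ℂ) - u (j, true) * Complex.I with ha
  set a' : Fin m → ℂ := fun j => (u (j, false) : ℂ) + u (j, true) * Complex.I with ha'
  set R : Polynomial ℂ := ∑ j : Fin m, (Polynomial.C (a j) * Polynomial.X ^ (m + ((j : ℕ) + 1)) +
    Polynomial.C (a' j) * Polynomial.X ^ (m - ((j : ℕ) + 1))) -
    Polynomial.C (2 * c : ℂ) * Polynomial.X ^ m with hR
  have hzero : ∀ z : ℂ, ‖z‖ = 1 → R.eval z = 0 := by
    intro z hz
    have hz0 : z ≠ 0 := by
      rintro rfl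
      simp at hz
    set s : ℝ := Complex.arg z / (2 * π) with hs
    have harg : Complex.arg z = 2 * π * s := by
      rw [hs]
      field_simp
    have hzs : z = Complex.exp ((2 * π * s : ℝ) * Complex.I) := by
      have h1 := Complex.norm_mul_exp_arg_mul_I z
      rw [hz, Complex.ofReal_one, one_mul, harg] at h1
      exact h1.symm
    have hpow : ∀ k : ℕ, z ^ k = Complex.cos (2 * π * k * s : ℝ) +
        Complex.sin (2 * π * k * s : ℝ) * Complex.I := by
      intro k
      rw [hzs, ← Complex.exp_nat_mul, ← Complex.exp_mul_I]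
      congr 1
      push_cast
      ring
    have hinv : ∀ k : ℕ, (z ^ k)⁻¹ = Complex.cos (2 * π * k * s : ℝ) -
        Complex.sin (2 * π * k * s : ℝ) * Complex.I := by
      intro k
      rw [hpow k]
      have h1 := Complex.cos_sq_add_sin_sq ((2 * π * k * s : ℝ) : ℂ)
      rw [inv_eq_of_mul_eq_one_right]
      have h2 : Complex.I * Complex.I = -1 := Complex.I_mul_I
      linear_combination h1 - (Complex.sin ((2 * π * k * s : ℝ) : ℂ)) ^ 2 * h2
    rw [hR, Polynomial.eval_sub, Polynomial.eval_finsetSum]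
    simp only [Polynomial.eval_add, Polynomial.eval_mul, Polynomial.eval_C, Polynomial.eval_pow,
      Polynomial.eval_X]
    have h2 : ∀ j : Fin m, a j * z ^ (m + ((j : ℕ) + 1)) + a' j * z ^ (m - ((j : ℕ) + 1)) =
        z ^ m * (2 * ((u (j, false) * cos (2 * π * ((j : ℕ) + 1) * s) +
          u (j, true) * sin (2 * π * ((j : ℕ) + 1) * s) : ℝ) : ℂ)) := by
      intro j
      have h3 : z ^ (m - ((j : ℕ) + 1)) = z ^ m * (z ^ ((j : ℕ) + 1))⁻¹ := by
        rw [eq_mul_inv_iff_mul_eq₀ (pow_ne_zero _ hz0), ← pow_add]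
        congr 1
        omega
      rw [h3, pow_add, hinv, hpow ((j : ℕ) + 1), ha, ha']
      push_cast
      have h5 : Complex.I * Complex.I = -1 := Complex.I_mul_I
      set C1 := Complex.cos (2 * (π : ℂ) * ((j : ℕ) + 1) * s) with hC1
      set S1 := Complex.sin (2 * (π : ℂ) * ((j : ℕ) + 1) * s) with hS1
      linear_combination (-2 * z ^ m * (u (j, true) : ℂ) * S1) * h5
    rw [sum_congr rfl fun j _ => h2 j, ← mul_sum, ← mul_sum, ← Complex.ofReal_sum]
    have h4 := h s
    unfold tp at h4
    rw [h4]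
    ring
  have hR0 : R = 0 := Polynomial.eq_zero_of_infinite_isRoot R
    (circle_infinite.mono fun z hz => hzero z hz)
  funext ⟨j0, b⟩
  have hcoeff : R.coeff (m + ((j0 : ℕ) + 1)) = a j0 := by
    rw [hR]
    simp only [Polynomial.coeff_sub, Polynomial.finsetSum_coeff, Polynomial.coeff_add,
      Polynomial.coeff_C_mul, Polynomial.coeff_X_pow]
    have e1 : ∀ j : Fin m, a j * (if m + ((j0 : ℕ) + 1) = m + ((j : ℕ) + 1) then (1 : ℂ) else 0) +
        a' j * (if m + ((j0 : ℕ) + 1) = m - ((j : ℕ) + 1) then (1 : ℂ) else 0) =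
        if j = j0 then a j else 0 := by
      intro j
      have h1 : ¬ (m + ((j0 : ℕ) + 1) = m - ((j : ℕ) + 1)) := by omega
      rw [if_neg h1, mul_zero, add_zero]
      by_cases hj : j = j0
      · subst hj
        simp
      · rw [if_neg hj, if_neg, mul_zero]
        intro h2
        apply hj
        apply Fin.ext
        omega
    rw [sum_congr rfl fun j _ => e1 j, Finset.sum_ite_eq' univ j0, if_pos (mem_univ _),
      if_neg (by omega), mul_zero, sub_zero]
  rw [hR0, Polynomial.coeff_zero] at hcoeff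
  have h1 := congrArg Complex.re hcoeff
  have h2 := congrArg Complex.im hcoeff
  simp [ha] at h1 h2
  cases b
  · exact h1.symm
  · exact h2

/-- a trigonometric polynomial is not locally a polynomial -/
lemma tp_not_poly {m : ℕ} {u : Fin m × Bool → ℝ} (hu : u ≠ 0) (P : Polynomial ℝ) (t0 : ℝ)
    (h : ∀ᶠ t in 𝓝 t0, tp u t = P.eval t) : False := by
  have hana : AnalyticOnNhd ℝ (fun t => tp u t - P.eval t) Set.univ := by
    intro t _
    refine AnalyticAt.sub ?_ ?_
    · unfold tp
      refine Finset.analyticAt_fun_sum _ fun j _ => ?_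
      refine AnalyticAt.add (analyticAt_const.mul ?_) (analyticAt_const.mul ?_)
      · exact Real.analyticAt_cos.comp (analyticAt_const.mul analyticAt_id)
      · exact Real.analyticAt_sin.comp (analyticAt_const.mul analyticAt_id)
    · exact AnalyticAt.aeval_polynomial analyticAt_id P
  have h1 := hana.eqOn_zero_of_preconnected_of_eventuallyEq_zero isPreconnected_univ
    (Set.mem_univ t0) (by
      filter_upwards [h] with t ht
      rw [Pi.zero_apply, ht, sub_self])
  have h2 : ∀ t, tp u t = P.eval t := fun t => by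
    have := h1 (Set.mem_univ t)
    simp only [Pi.zero_apply] at this
    linarith
  have hper : ∀ (t : ℝ) (k : ℕ), tp u (t + k) = tp u t := by
    intro t k
    unfold tp
    refine sum_congr rfl fun j _ => ?_
    have e1 : 2 * π * ((j : ℕ) + 1) * (t + k) = 2 * π * ((j : ℕ) + 1) * t +
        (((((j : ℕ) + 1) * k : ℕ)) : ℝ) * (2 * π) := by
      push_cast
      ring
    rw [e1, Real.cos_add_nat_mul_two_pi, Real.sin_add_nat_mul_two_pi]
  have hP : P = Polynomial.C (P.eval 0) := by
    have h3 : (P - Polynomial.C (P.eval 0)) = 0 := by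
      apply Polynomial.eq_zero_of_infinite_isRoot
      apply Set.infinite_of_injective_forall_mem (f := fun k : ℕ => (k : ℝ))
      · exact Nat.cast_injective
      · intro k
        show Polynomial.IsRoot _ _
        rw [Polynomial.IsRoot, Polynomial.eval_sub, Polynomial.eval_C, ← h2, ← h2]
        have := hper 0 k
        rw [zero_add] at this
        rw [this, sub_self]
    exact sub_eq_zero.1 h3
  apply hu
  apply tp_const (c := P.eval 0)
  intro s
  rw [h2 s]
  conv_lhs => rw [hP]
  rw [Polynomial.eval_C]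

/-- the product over a set of integers at least two -/
lemma prod_lower (s : Finset ℕ) (hs : ∀ p ∈ s, 2 ≤ p) :
    1 / ((s.card : ℝ) + 1) ≤ ∏ p ∈ s, (1 - 1 / (p : ℝ)) := by
  induction s using Finset.induction_on_max with
  | empty => simp
  | insert p s hlt ih =>
    have hps : p ∉ s := fun h => lt_irrefl _ (hlt p h)
    rw [prod_insert hps, card_insert_of_notMem hps]
    have hs' : ∀ q ∈ s, 2 ≤ q := fun q hq => hs q (mem_insert_of_mem hq)
    have hp2 : 2 ≤ p := hs p (mem_insert_self _ _)
    have hcard : s.card + 2 ≤ p := by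
      have h1 : s ⊆ Finset.Ico 2 p := fun q hq => by
        rw [Finset.mem_Ico]
        exact ⟨hs' q hq, hlt q hq⟩
      have h2 := card_le_card h1
      rw [Nat.card_Ico] at h2
      omega
    have h3 := ih hs'
    have hp0 : (0 : ℝ) < p := by
      have : 0 < p := by omega
      exact_mod_cast this
    have hc : ((s.card : ℝ) + 2) ≤ p := by exact_mod_cast hcard
    have hc0 : (0 : ℝ) ≤ s.card := Nat.cast_nonneg _
    have h4 : 1 - 1 / ((s.card : ℝ) + 2) ≤ 1 - 1 / (p : ℝ) := by
      have := one_div_le_one_div_of_le (by positivity) hc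
      linarith
    have h5 : 0 ≤ 1 - 1 / ((s.card : ℝ) + 2) := by
      rw [sub_nonneg, div_le_one (by positivity)]
      linarith
    calc 1 / (((s.card + 1 : ℕ) : ℝ) + 1) = (1 - 1 / ((s.card : ℝ) + 2)) * (1 / ((s.card : ℝ) + 1)) := by
          push_cast
          field_simp
          ring
      _ ≤ (1 - 1 / (p : ℝ)) * ∏ q ∈ s, (1 - 1 / (q : ℝ)) :=
          mul_le_mul h4 h3 (by positivity) (h5.trans h4)

/-- a lower bound for the totient function -/
lemma totient_lower {N : ℕ} (hN : 1 ≤ N) : (N : ℝ) ≤ (Real.log N / Real.log 2 + 1) * N.totient := by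
  have h1 := Nat.totient_eq_mul_prod_factors N
  have h2 : (N.totient : ℝ) = N * ∏ p ∈ N.primeFactors, (1 - 1 / (p : ℝ)) := by
    have h3 : (((N.totient : ℚ)) : ℝ) = (((N : ℚ) * ∏ p ∈ N.primeFactors, (1 - (p : ℚ)⁻¹) : ℚ) : ℝ) := by
      rw [h1]
    push_cast at h3
    rw [h3]
    congr 1
    refine prod_congr rfl fun p _ => ?_
    rw [one_div]
  have h3 := prod_lower N.primeFactors fun p hp => (Nat.prime_of_mem_primeFactors hp).two_le
  set w : ℕ := N.primeFactors.card with hw
  have h4 : 2 ^ w ≤ N := by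
    calc 2 ^ w = ∏ _p ∈ N.primeFactors, 2 := by rw [prod_const]
      _ ≤ ∏ p ∈ N.primeFactors, p :=
          Finset.prod_le_prod' fun p hp => (Nat.prime_of_mem_primeFactors hp).two_le
      _ ≤ N := Nat.le_of_dvd (by omega) (Nat.prod_primeFactors_dvd N)
  have hl2 : 0 < Real.log 2 := Real.log_pos (by norm_num)
  have h5 : (w : ℝ) ≤ Real.log N / Real.log 2 := by
    rw [le_div_iff₀ hl2, ← Real.log_pow]
    apply Real.log_le_log (by positivity)
    exact_mod_cast h4
  have hN0 : (0 : ℝ) < N := by exact_mod_cast hN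
  have hw0 : (0 : ℝ) ≤ w := Nat.cast_nonneg _
  rw [h2]
  calc (N : ℝ) = ((w : ℝ) + 1) * (N * (1 / ((w : ℝ) + 1))) := by field_simp
    _ ≤ (Real.log N / Real.log 2 + 1) * (N * ∏ p ∈ N.primeFactors, (1 - 1 / (p : ℝ))) := by
        gcongr

end Pool.Agent.H609.AV
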